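import Mathlib
import Pool.Agent.H604.LD.StmP
import Pool.Agent.H604.LD.DatL

/-!
# Applications of the uniform theorem with power saving (helper604)
-/

set_option autoImplicit false
set_option linter.unusedSectionVars false

namespace Pool.Agent.H604.LD

open Polynomial
open scoped Classical
open Pool.Agent.H694.Typ (Mn PU mem_Mn)
open Pool.Agent.H985.KP (PA)

section

variable {K : Type} [Field K] [Fintype K] [CharP K 2]

theorem ncard_eq (d : ℕ) (p : K[X] → Prop) :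
    (({a : K[X] | a.Monic ∧ a.natDegree = d ∧ p a}.ncard : ℝ)) =
      (((Mn K d).filter p).card : ℝ) := by
  rw [← Set.ncard_coe_finset]
  congr 2
  ext a
  simp only [Set.mem_ofPred_eq, Finset.coe_filter, mem_Mn]
  tauto

theorem PiM_unit {M : K[X]} (hM : IsUnit M) : PiM M = 1 := by
  unfold PiM
  apply finprod_mem_eq_one_of_forall_eq_one
  intro P hP
  exact absurd (isUnit_of_dvd_unit hP.2.2 hM) hP.2.1.not_isUnit

/-- Primes `T² + c`, uniformly. -/
theorem sq_add (hb : S_bhqp) (K : Type) [Field K] [Fintype K] [CharP K 2] :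
    ∃ δ θ : ℝ, 0 < δ ∧ 0 < θ ∧ ∃ d₀ : ℕ, ∀ (c : K[X]) (d : ℕ), ¬ IsSquare c → d₀ ≤ d →
      (c.natDegree : ℝ) ≤ θ * d →
      |2 * (d : ℝ) * ({a : K[X] | a.Monic ∧ a.natDegree = d ∧ Irreducible (a ^ 2 + c)}.ncard : ℝ) -
        (Fintype.card K : ℝ) ^ d| ≤ (Fintype.card K : ℝ) ^ ((1 - δ) * d) := by
  obtain ⟨δ, θ, hδ, hθ, d₀, h⟩ := hb K
  refine ⟨δ, θ, hδ, hθ, d₀, fun c d hc hd hcd => ?_⟩
  have h1 := h 1 c (X ^ d) 0 d one_ne_zero isCoprime_one_left (by rwa [one_mul]) hd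
    (monic_X_pow d) (natDegree_X_pow d) (by simpa using hcd)
  rw [ncard_eq]
  rw [PiM_unit isUnit_one] at h1
  simp only [natDegree_one, Nat.cast_zero, add_zero, Nat.sub_zero, one_mul, div_one] at h1
  have h2 : (Mn K d).filter (fun T => (T - X ^ d).degree < (d : WithBot ℕ) ∧
      Irreducible (T ^ 2 + c)) = (Mn K d).filter (fun T => Irreducible (T ^ 2 + c)) := by
    apply Finset.filter_congr
    intro T hT
    rw [mem_Mn] at hT
    have h3 : (T - X ^ d).degree < (d : WithBot ℕ) := by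
      have h4 : T.degree = (d : WithBot ℕ) := by
        rw [degree_eq_natDegree hT.1.ne_zero, hT.2]
      rw [← h4]
      apply degree_sub_lt_left
      · rw [h4, degree_X_pow]
      · exact hT.1.ne_zero
      · rw [hT.1.leadingCoeff, (monic_X_pow d).leadingCoeff]
    simp [h3]
  rw [h2] at h1
  exact h1

/-- Primes `α T² + β`, uniformly. -/
theorem quad (hb : S_bhqp) (K : Type) [Field K] [Fintype K] [CharP K 2] :
    ∃ δ θ : ℝ, 0 < δ ∧ 0 < θ ∧ ∃ d₀ : ℕ, ∀ (α β : K[X]) (d : ℕ), α ≠ 0 → IsCoprime α β →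
      ¬ IsSquare (α * β) → d₀ ≤ d → ((α.natDegree + β.natDegree : ℕ) : ℝ) ≤ θ * d →
      |(2 * (d : ℝ) + α.natDegree) *
          ({T : K[X] | T.Monic ∧ T.natDegree = d ∧ Irreducible (α * T ^ 2 + β)}.ncard : ℝ) -
        (Fintype.card K : ℝ) ^ d / ∏ᶠ P ∈ {P : K[X] | P.Monic ∧ Irreducible P ∧ P ∣ α},
          (1 - 1 / (Fintype.card K : ℝ) ^ P.natDegree)| ≤
        (Fintype.card K : ℝ) ^ ((1 - δ) * d) := by
  obtain ⟨δ, θ, hδ, hθ, d₀, h⟩ := hb K
  refine ⟨δ, θ, hδ, hθ, d₀, fun α β d hα hc hsq hd hcd => ?_⟩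
  have h1 := h α β (X ^ d) 0 d hα hc hsq hd
    (monic_X_pow d) (natDegree_X_pow d) (by simpa using hcd)
  rw [ncard_eq]
  simp only [Nat.sub_zero] at h1
  have h2 : (Mn K d).filter (fun T => (T - X ^ d).degree < (d : WithBot ℕ) ∧
      Irreducible (α * T ^ 2 + β)) = (Mn K d).filter (fun T => Irreducible (α * T ^ 2 + β)) := by
    apply Finset.filter_congr
    intro T hT
    rw [mem_Mn] at hT
    have h3 : (T - X ^ d).degree < (d : WithBot ℕ) := by
      have h4 : T.degree = (d : WithBot ℕ) := by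
        rw [degree_eq_natDegree hT.1.ne_zero, hT.2]
      rw [← h4]
      apply degree_sub_lt_left
      · rw [h4, degree_X_pow]
      · exact hT.1.ne_zero
      · rw [hT.1.leadingCoeff, (monic_X_pow d).leadingCoeff]
    simp [h3]
  rw [h2] at h1
  exact h1

/-- Primes `T² + c` in short intervals and residue classes, uniformly. -/
theorem int_ap (hb : S_landaup) (K : Type) [Field K] [Fintype K] [CharP K 2] :
    ∃ δ θ : ℝ, 0 < δ ∧ 0 < θ ∧ ∃ d₀ : ℕ, ∀ (M r g : K[X]) (d l : ℕ), M.Monic → g.Monic →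
      g.natDegree = d → IsCoprime (r ^ 2 + X) M → d₀ ≤ d →
      ((M.natDegree + l : ℕ) : ℝ) ≤ θ * d →
      |2 * (d : ℝ) * ({a : K[X] | M ∣ a - r ∧ (a - g).degree < ((d - l : ℕ) : WithBot ℕ) ∧
          Irreducible (a ^ 2 + X)}.ncard : ℝ) -
        (Fintype.card K : ℝ) ^ (d - M.natDegree - l) /
          ∏ᶠ P ∈ {P : K[X] | P.Monic ∧ Irreducible P ∧ P ∣ M},
            (1 - 1 / (Fintype.card K : ℝ) ^ P.natDegree)| ≤
        (Fintype.card K : ℝ) ^ ((1 - δ) * d) := by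
  obtain ⟨δ, θ, hδ, hθ, d₀, h⟩ := hb K
  have hf : ∀ a : K[X], ga 1 1 1 a = a ^ 2 + X := by
    intro a
    unfold ga fa
    rw [EuclideanDomain.div_one, map_one, one_mul, one_pow, mul_one]
  refine ⟨δ, θ, hδ, hθ, max d₀ 1, fun M r g d l hM hg hgd hco hd hcd => ?_⟩
  have hD : DatU 1 1 M r 1 g d :=
    ⟨⟨one_ne_zero, monic_one, hM, by rw [one_pow]; exact one_dvd _, monic_one, squarefree_one,
      one_dvd _, one_dvd _, by rw [hf]; exact hco⟩, hg, hgd⟩
  have h1 := h 1 1 M r 1 g l d hD (le_trans (le_max_left _ _) hd) hcd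
  simp only [natDegree_one, Nat.cast_zero, sub_zero, hf] at h1
  have hd1 : 1 ≤ d := le_trans (le_max_right _ _) hd
  have h2 : ({a : K[X] | M ∣ a - r ∧ (a - g).degree < ((d - l : ℕ) : WithBot ℕ) ∧
      Irreducible (a ^ 2 + X)}.ncard : ℝ) =
      (((AsU K d M r g l).filter (fun a => Irreducible (a ^ 2 + X))).card : ℝ) := by
    rw [← Set.ncard_coe_finset]
    congr 2
    ext a
    simp only [Set.mem_ofPred_eq, Finset.coe_filter, AsU, As, Finset.mem_filter, mem_Mn]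
    constructor
    · rintro ⟨h3, h4, h5⟩
      have h6 : (a - g).degree < g.degree := by
        rw [degree_eq_natDegree hg.ne_zero, hgd]
        refine lt_of_lt_of_le h4 ?_
        exact_mod_cast Nat.sub_le d l
      have h7 : a = g + (a - g) := by ring
      have h8 : a.Monic := by rw [h7]; exact hg.add_of_left h6
      have h9 : a.natDegree = d := by
        rw [h7, natDegree_add_eq_left_of_degree_lt h6, hgd]
      exact ⟨⟨⟨⟨h8, h9⟩, h3⟩, h4⟩, h5⟩
    · rintro ⟨⟨⟨⟨h8, h9⟩, h3⟩, h4⟩, h5⟩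
      exact ⟨h3, h4, h5⟩
  rw [h2]
  exact h1

end

end Pool.Agent.H604.LD
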