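import Mathlib
import Pool.Agent.H604.LD.StmP
import Pool.Agent.H604.LD.FinM
import Pool.Agent.H604.LD.App.A1

/-!
# The uniform theorem for `α T² + β` with `(α β)'` of small degree (helper604)
-/

set_option autoImplicit false
set_option linter.unusedSectionVars false

namespace Pool.Agent.H604.LD

open Polynomial
open scoped Classical
open Pool.Agent.H694.Typ (Mn PU mem_Mn)
open Pool.Agent.H985.KP (PA)

namespace A2

variable {K : Type} [Field K] [Fintype K] [CharP K 2]

theorem deg_sq_add (x y : K[X]) :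
    2 * x.natDegree ≤ (x ^ 2 + X * y ^ 2).natDegree ∧
      (y ≠ 0 → 2 * y.natDegree + 1 ≤ (x ^ 2 + X * y ^ 2).natDegree) ∧
      (x ^ 2 + X * y ^ 2).natDegree ≤ max (2 * x.natDegree) (2 * y.natDegree + 1) := by
  have h1 : (x ^ 2).natDegree = 2 * x.natDegree := natDegree_pow x 2
  by_cases hy : y = 0
  · rw [hy]
    simp only [ne_eq, OfNat.ofNat_ne_zero, not_false_eq_true, zero_pow, mul_zero, add_zero,
      natDegree_zero, not_true_eq_false, false_imp_iff, true_and, h1]
    exact ⟨le_rfl, le_max_left _ _⟩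
  have h2 : (X * y ^ 2).natDegree = 2 * y.natDegree + 1 := by
    rw [natDegree_X_mul (pow_ne_zero 2 hy), natDegree_pow]
  have hne : (x ^ 2).natDegree ≠ (X * y ^ 2).natDegree := by
    rw [h1, h2]
    omega
  have h3 : (x ^ 2 + X * y ^ 2).natDegree = max (2 * x.natDegree) (2 * y.natDegree + 1) := by
    rw [← h1, ← h2]
    rcases lt_or_gt_of_ne hne with h | h
    · rw [natDegree_add_eq_right_of_natDegree_lt h, max_eq_right h.le]
    · rw [natDegree_add_eq_left_of_natDegree_lt h, max_eq_left h.le]
  rw [h3]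
  exact ⟨le_max_left _ _, fun _ => le_max_right _ _, le_rfl⟩

end A2

/-- **Primes `α T² + β`, uniformly, in short intervals; only `α` and `(α β)'` must be of small
degree.** -/
theorem quadI (hb : S_bhqp) (K : Type) [Field K] [Fintype K] [CharP K 2] :
    ∃ δ θ : ℝ, 0 < δ ∧ 0 < θ ∧ ∃ d₀ : ℕ, ∀ (α β g : K[X]) (d l : ℕ), α ≠ 0 → IsCoprime α β →
      ¬ IsSquare (α * β) → β.natDegree < 2 * d + α.natDegree → g.Monic → g.natDegree = d → d₀ ≤ d →
      ((α.natDegree + (derivative (α * β)).natDegree + l : ℕ) : ℝ) ≤ θ * d →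
      |(2 * (d : ℝ) + α.natDegree) *
          ({T : K[X] | (T - g).degree < ((d - l : ℕ) : WithBot ℕ) ∧
            Irreducible (α * T ^ 2 + β)}.ncard : ℝ) -
        (Fintype.card K : ℝ) ^ (d - l) / ∏ᶠ P ∈ {P : K[X] | P.Monic ∧ Irreducible P ∧ P ∣ α},
          (1 - 1 / (Fintype.card K : ℝ) ^ P.natDegree)| ≤
        (Fintype.card K : ℝ) ^ ((1 - δ) * d) := by
  obtain ⟨δ, θ, hδ, hθ, d₀, h⟩ := hb K
  obtain ⟨d₁, hd₁⟩ := exists_nat_gt (4 / θ)
  refine ⟨δ, θ / 4, hδ, by positivity, max d₀ (max d₁ 1), ?_⟩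
  intro α β g d l hα hc hsq hβ hg hgd hd hcd
  have two0 := FINM.two0 (K := K)
  obtain ⟨c₀, y, hc0⟩ := FINM.decomp (α * β)
  set e : K[X] := c₀ / α with he
  set r : K[X] := c₀ % α with hr
  have hcr : c₀ = α * e + r := (EuclideanDomain.div_add_mod c₀ α).symm
  set β₁ : K[X] := β + α * e ^ 2 with hβ₁
  have h1 : α * β₁ = r ^ 2 + X * y ^ 2 := by
    rw [hβ₁, mul_add, hc0, hcr]
    linear_combination (α * e * r + α ^ 2 * e ^ 2) * two0
  have hco : IsCoprime α β₁ := by
    rw [hβ₁]
    exact hc.add_mul_left_right (e ^ 2)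
  have hns : ¬ IsSquare (α * β₁) := by
    rintro ⟨z, hz⟩
    apply hsq
    refine ⟨z + α * e, ?_⟩
    have h2 : α * β = α * β₁ + (α * e) ^ 2 := by
      rw [hβ₁]
      linear_combination (- α ^ 2 * e ^ 2) * two0
    rw [h2, hz]
    linear_combination (- (z * (α * e))) * two0
  have hy : y ≠ 0 := by
    rintro rfl
    exact hns ⟨r, by rw [h1]; ring⟩
  have hder : (derivative (α * β)).natDegree = 2 * y.natDegree := by
    rw [FINM.der hc0, natDegree_pow]
  have hβ10 : β₁ ≠ 0 := by
    intro h0
    rw [h0, mul_zero] at hns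
    exact hns ⟨0, by ring⟩
  have hβ0 : β ≠ 0 := by
    rintro rfl
    rw [mul_zero] at hsq
    exact hsq ⟨0, by ring⟩
  have hdr : r.natDegree ≤ α.natDegree := by
    by_cases hr0 : r = 0
    · rw [hr0, natDegree_zero]
      exact Nat.zero_le _
    · exact natDegree_le_natDegree (le_of_lt (EuclideanDomain.mod_lt c₀ hα))
  have hdb1 : β₁.natDegree ≤ 2 * α.natDegree + 2 * y.natDegree + 1 := by
    have h3 : α.natDegree + β₁.natDegree = (r ^ 2 + X * y ^ 2).natDegree := by
      rw [← h1, natDegree_mul hα hβ10]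
    have h4 := (A2.deg_sq_add r y).2.2
    omega
  have hde : e ≠ 0 → e.natDegree < d := by
    intro he0
    have h3 := (A2.deg_sq_add c₀ y).1
    rw [← hc0, natDegree_mul hα hβ0] at h3
    have h4 : e.natDegree + α.natDegree ≤ c₀.natDegree := by
      have hae : (α * e).natDegree = α.natDegree + e.natDegree := natDegree_mul hα he0
      have h5 : (α * e + r).natDegree = (α * e).natDegree := by
        apply natDegree_add_eq_left_of_degree_lt
        refine lt_of_lt_of_le (EuclideanDomain.mod_lt c₀ hα) ?_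
        rw [degree_mul]
        exact le_add_of_nonneg_right (zero_le_degree_iff.2 he0)
      rw [hcr, h5, hae]
      omega
    omega
  have hd1 : 1 ≤ d := le_trans (le_trans (le_max_right _ _) (le_max_right _ _)) hd
  have hed : e.degree < (d : WithBot ℕ) := by
    by_cases he0 : e = 0
    · rw [he0, degree_zero]
      exact WithBot.bot_lt_coe d
    · rw [degree_eq_natDegree he0]
      exact_mod_cast hde he0
  have hgdeg : g.degree = (d : WithBot ℕ) := by
    rw [degree_eq_natDegree hg.ne_zero, hgd]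
  have hge : (g + e).Monic := hg.add_of_left (by rw [hgdeg]; exact hed)
  have hged : (g + e).natDegree = d := by
    rw [natDegree_add_eq_left_of_degree_lt (by rw [hgdeg]; exact hed), hgd]
  have hcd' : ((α.natDegree + β₁.natDegree + l : ℕ) : ℝ) ≤ θ * d := by
    have h3 : α.natDegree + β₁.natDegree + l ≤
        3 * (α.natDegree + (derivative (α * β)).natDegree + l) + 1 := by
      rw [hder]
      omega
    have h4 : ((α.natDegree + β₁.natDegree + l : ℕ) : ℝ) ≤
        3 * ((α.natDegree + (derivative (α * β)).natDegree + l : ℕ) : ℝ) + 1 := by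
      exact_mod_cast h3
    have h5 : (1 : ℝ) ≤ θ / 4 * d := by
      have h6 : (d₁ : ℝ) ≤ d := by
        exact_mod_cast le_trans (le_trans (le_max_left _ _) (le_max_right _ _)) hd
      have h7 : 4 / θ ≤ (d : ℝ) := le_trans hd₁.le h6
      rw [div_le_iff₀ hθ] at h7
      linarith
    linarith
  have h2 := h α β₁ (g + e) l d hα hco hns (le_trans (le_max_left _ _) hd) hge hged hcd'
  have hset : ({T : K[X] | (T - g).degree < ((d - l : ℕ) : WithBot ℕ) ∧
      Irreducible (α * T ^ 2 + β)}.ncard : ℝ) =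
      (((Mn K d).filter (fun T => (T - (g + e)).degree < ((d - l : ℕ) : WithBot ℕ) ∧
            Irreducible (α * T ^ 2 + β₁))).card : ℝ) := by
    rw [← Set.ncard_coe_finset]
    congr 1
    have h3 : Function.Injective (fun T : K[X] => T + e) := add_left_injective e
    rw [← Set.ncard_image_of_injective _ h3]
    congr 1
    ext T
    simp only [Set.mem_image, Set.mem_ofPred_eq, Finset.coe_filter, mem_Mn]
    have key : ∀ S : K[X], α * (S + e) ^ 2 + β₁ = α * S ^ 2 + β := by
      intro S
      rw [hβ₁]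
      linear_combination (α * S * e + α * e ^ 2) * two0
    constructor
    · rintro ⟨S, ⟨h4, h5⟩, rfl⟩
      have h6 : (S - g).degree < g.degree := by
        rw [hgdeg]
        refine lt_of_lt_of_le h4 ?_
        exact_mod_cast Nat.sub_le d l
      have h7 : S + e - (g + e) = S - g := by ring
      have h8 : S + e = (g + e) + (S - g) := by ring
      have h9 : (g + e).degree = (d : WithBot ℕ) := by
        rw [degree_eq_natDegree hge.ne_zero, hged]
      refine ⟨⟨?_, ?_⟩, ?_, ?_⟩
      · rw [h8]
        exact hge.add_of_left (by rw [h9, ← hgdeg]; exact h6)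
      · rw [h8, natDegree_add_eq_left_of_degree_lt (by rw [h9, ← hgdeg]; exact h6), hged]
      · rw [h7]
        exact h4
      · rw [key]
        exact h5
    · rintro ⟨-, h4, h5⟩
      refine ⟨T - e, ⟨?_, ?_⟩, by ring⟩
      · have h7 : T - e - g = T - (g + e) := by ring
        rw [h7]
        exact h4
      · rw [← key]
        rw [sub_add_cancel]
        exact h5
  rw [hset]
  exact h2

end Pool.Agent.H604.LD
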