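import Mathlib
import Pool.Agent.H604.LD.App.A2

/-!
# Consequences of the uniform theorem (helper604)
-/

set_option autoImplicit false
set_option linter.unusedSectionVars false

namespace Pool.Agent.H604.LD

open Polynomial
open scoped Classical
open Pool.Agent.H694.Typ (Mn PU mem_Mn)
open Pool.Agent.H985.KP (PA)

section

variable {K : Type} [Field K] [Fintype K] [CharP K 2]

theorem interval_eq {g : K[X]} {d : ℕ} (hg : g.Monic) (hgd : g.natDegree = d) (T : K[X]) :
    (T - g).degree < (d : WithBot ℕ) ↔ T.Monic ∧ T.natDegree = d := by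
  have hgdeg : g.degree = (d : WithBot ℕ) := by
    rw [degree_eq_natDegree hg.ne_zero, hgd]
  constructor
  · intro h
    have h1 : T = g + (T - g) := by ring
    refine ⟨?_, ?_⟩
    · rw [h1]
      exact hg.add_of_left (by rw [hgdeg]; exact h)
    · rw [h1, natDegree_add_eq_left_of_degree_lt (by rw [hgdeg]; exact h), hgd]
  · rintro ⟨h1, h2⟩
    have h3 : T.degree = (d : WithBot ℕ) := by
      rw [degree_eq_natDegree h1.ne_zero, h2]
    rw [← h3]
    apply degree_sub_lt_left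
    · rw [h3, hgdeg]
    · exact h1.ne_zero
    · rw [h1.leadingCoeff, hg.leadingCoeff]

theorem prod_one : ∏ᶠ P ∈ {P : K[X] | P.Monic ∧ Irreducible P ∧ P ∣ (1 : K[X])},
    (1 - 1 / (Fintype.card K : ℝ) ^ P.natDegree) = 1 := by
  apply finprod_mem_eq_one_of_forall_eq_one
  intro P hP
  exact absurd (isUnit_of_dvd_one hP.2.2) hP.2.1.not_isUnit

end

/-- Primes `T² + c`, uniformly for `c'` of small degree. -/
theorem sqI (hb : S_bhqp) (K : Type) [Field K] [Fintype K] [CharP K 2] :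
    ∃ δ θ : ℝ, 0 < δ ∧ 0 < θ ∧ ∃ d₀ : ℕ, ∀ (c : K[X]) (d : ℕ), ¬ IsSquare c →
      c.natDegree < 2 * d → d₀ ≤ d → ((derivative c).natDegree : ℝ) ≤ θ * d →
      |2 * (d : ℝ) * ({a : K[X] | a.Monic ∧ a.natDegree = d ∧ Irreducible (a ^ 2 + c)}.ncard : ℝ) -
        (Fintype.card K : ℝ) ^ d| ≤ (Fintype.card K : ℝ) ^ ((1 - δ) * d) := by
  obtain ⟨δ, θ, hδ, hθ, d₀, h⟩ := quadI hb K
  refine ⟨δ, θ, hδ, hθ, d₀, fun c d hc hcd hd hcd' => ?_⟩
  have h1 := h 1 c (X ^ d) d 0 one_ne_zero isCoprime_one_left (by rwa [one_mul])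
    (by simpa using hcd) (monic_X_pow d) (natDegree_X_pow d) hd
    (by rw [one_mul, natDegree_one, zero_add, add_zero]; exact hcd')
  rw [prod_one, natDegree_one, div_one, Nat.cast_zero, add_zero, Nat.sub_zero] at h1
  simp only [one_mul, interval_eq (monic_X_pow d) (natDegree_X_pow d), and_assoc] at h1
  exact h1

/-- Two estimates. -/
theorem pow_lower {q δ : ℝ} (hq : 2 ≤ q) (hδ : 0 < δ) :
    ∃ d₁ : ℕ, ∀ d : ℕ, d₁ ≤ d → q ^ ((1 - δ) * d) ≤ q ^ d / 2 := by
  obtain ⟨d₁, hd₁⟩ := exists_nat_gt (1 / δ)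
  refine ⟨d₁, fun d hd => ?_⟩
  have hq0 : 0 < q := by linarith
  have h1 : (1 : ℝ) ≤ δ * d := by
    have h2 : 1 / δ ≤ (d : ℝ) := le_trans hd₁.le (by exact_mod_cast hd)
    rw [div_le_iff₀ hδ] at h2
    linarith
  have h2 : q ^ ((1 - δ) * d) ≤ q ^ ((d : ℝ) - 1) := by
    apply Real.rpow_le_rpow_of_exponent_le (by linarith)
    nlinarith
  refine h2.trans ?_
  rw [Real.rpow_sub hq0, Real.rpow_one, Real.rpow_natCast]
  apply div_le_div_of_nonneg_left (by positivity) (by norm_num) hq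

/-- The least prime `a² + c`. -/
theorem least (hb : S_bhqp) (K : Type) [Field K] [Fintype K] [CharP K 2] :
    ∃ B : ℕ, ∀ (c : K[X]) (d : ℕ), ¬ IsSquare c → c.natDegree < 2 * d →
      B * ((derivative c).natDegree + 1) ≤ d →
      ∃ a : K[X], a.Monic ∧ a.natDegree = d ∧ Irreducible (a ^ 2 + c) := by
  obtain ⟨δ, θ, hδ, hθ, d₀, h⟩ := sqI hb K
  have hq : (2 : ℝ) ≤ (Fintype.card K : ℝ) := by
    exact_mod_cast Fintype.one_lt_card (α := K)
  obtain ⟨d₁, hd₁⟩ := pow_lower hq hδ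
  obtain ⟨d₂, hd₂⟩ := exists_nat_gt (1 / θ)
  refine ⟨d₀ + d₁ + d₂, fun c d hc hcd hB => ?_⟩
  have hB1 : d₀ + d₁ + d₂ ≤ d := by
    refine le_trans ?_ hB
    exact Nat.le_mul_of_pos_right _ (Nat.succ_pos _)
  have hθd : ((derivative c).natDegree : ℝ) ≤ θ * d := by
    have h1 : (d₂ : ℝ) * ((derivative c).natDegree : ℝ) ≤ d := by
      have h2 : d₂ * (derivative c).natDegree ≤ d := by
        refine le_trans ?_ hB
        exact Nat.mul_le_mul (by omega) (by omega)
      exact_mod_cast h2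
    have h3 : (1 / θ) * ((derivative c).natDegree : ℝ) ≤ d :=
      le_trans (mul_le_mul_of_nonneg_right hd₂.le (Nat.cast_nonneg _)) h1
    rw [one_div, inv_mul_le_iff₀ hθ] at h3
    exact h3
  have h1 := h c d hc hcd (by omega) hθd
  have h2 := hd₁ d (by omega)
  by_contra hne
  have h3 : {a : K[X] | a.Monic ∧ a.natDegree = d ∧ Irreducible (a ^ 2 + c)} = ∅ := by
    ext a
    simp only [Set.mem_ofPred_eq, Set.mem_empty_iff_false, iff_false]
    intro h4
    exact hne ⟨a, h4⟩
  rw [h3, Set.ncard_empty, Nat.cast_zero, mul_zero, zero_sub, abs_neg] at h1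
  have h4 : (0 : ℝ) < (Fintype.card K : ℝ) ^ d := by positivity
  rw [abs_of_pos h4] at h1
  linarith

/-- Primes `a² + X`. -/
theorem landau_ps (hb : S_bhqp) (K : Type) [Field K] [Fintype K] [CharP K 2] :
    ∃ δ : ℝ, 0 < δ ∧ ∃ d₀ : ℕ, ∀ d : ℕ, d₀ ≤ d →
      |2 * (d : ℝ) * ({a : K[X] | a.Monic ∧ a.natDegree = d ∧ Irreducible (a ^ 2 + X)}.ncard : ℝ) -
        (Fintype.card K : ℝ) ^ d| ≤ (Fintype.card K : ℝ) ^ ((1 - δ) * d) := by
  obtain ⟨δ, θ, hδ, hθ, d₀, h⟩ := sqI hb K
  refine ⟨δ, hδ, max d₀ 1, fun d hd => h X d ?_ ?_ (le_trans (le_max_left _ _) hd) ?_⟩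
  · rintro ⟨z, hz⟩
    have h1 : (X : K[X]).natDegree = (z * z).natDegree := by rw [← hz]
    rw [natDegree_X] at h1
    by_cases hz0 : z = 0
    · rw [hz0] at hz
      simp at hz
    · rw [natDegree_mul hz0 hz0] at h1
      omega
  · rw [natDegree_X]
    have := le_trans (le_max_right _ _) hd
    omega
  · rw [derivative_X, natDegree_one, Nat.cast_zero]
    positivity

/-- Representations `N = P + a²`. -/
theorem prime_add_sq (hb : S_bhqp) (K : Type) [Field K] [Fintype K] [CharP K 2] :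
    ∃ δ θ : ℝ, 0 < δ ∧ 0 < θ ∧ ∃ d₀ : ℕ, ∀ (N : K[X]) (d : ℕ), derivative N ≠ 0 →
      N.natDegree ≤ 2 * d → d₀ ≤ d → ((derivative N).natDegree : ℝ) ≤ θ * d →
      |2 * (d : ℝ) * ({P : K[X] | P.Monic ∧ Irreducible P ∧ P.natDegree = 2 * d ∧
          ∃ a : K[X], N = P + a ^ 2}.ncard : ℝ) -
        (Fintype.card K : ℝ) ^ d| ≤ (Fintype.card K : ℝ) ^ ((1 - δ) * d) := by
  obtain ⟨δ, θ, hδ, hθ, d₀, h⟩ := sqI hb K
  obtain ⟨d₂, hd₂⟩ := exists_nat_gt (1 / θ)
  refine ⟨δ, min θ 1, hδ, lt_min hθ one_pos, max d₀ 2, fun N d hN hNd hd hNd' => ?_⟩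
  have two0 := FINM.two0 (K := K)
  obtain ⟨e, y, hey⟩ := FINM.decomp N
  have hder := FINM.der hey
  have hy : y ≠ 0 := by
    rintro rfl
    rw [hder] at hN
    exact hN (by ring)
  have hd2 : 2 ≤ d := le_trans (le_max_right _ _) hd
  set c : K[X] := X * y ^ 2 with hc
  have hcder : derivative c = y ^ 2 := FINM.der (e := 0) (by rw [hc]; ring)
  have hNd1 : ((derivative N).natDegree : ℝ) ≤ d :=
    hNd'.trans (by
      have := mul_le_mul_of_nonneg_right (min_le_right θ 1) (Nat.cast_nonneg d)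
      simpa using this)
  have hyd : 2 * y.natDegree ≤ d := by
    rw [hder, natDegree_pow] at hNd1
    exact_mod_cast hNd1
  have hcdeg : c.natDegree = 2 * y.natDegree + 1 := by
    rw [hc, natDegree_X_mul (pow_ne_zero 2 hy), natDegree_pow]
  have hcsq : ¬ IsSquare c := by
    rintro ⟨z, hz⟩
    have h1 : derivative c = 0 := by
      rw [hz, ← sq]
      have h2 : z ^ 2 = z ^ 2 + X * (0 : K[X]) ^ 2 := by ring
      rw [FINM.der h2]
      ring
    rw [hcder] at h1
    exact pow_ne_zero 2 hy h1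
  have h1 := h c d hcsq (by omega) (le_trans (le_max_left _ _) hd) (by
    rw [hcder, ← hder]
    refine hNd'.trans (mul_le_mul_of_nonneg_right (min_le_left θ 1) (Nat.cast_nonneg d)))
  have hset : {P : K[X] | P.Monic ∧ Irreducible P ∧ P.natDegree = 2 * d ∧
      ∃ a : K[X], N = P + a ^ 2} = (fun A : K[X] => A ^ 2 + c) ''
        {A : K[X] | A.Monic ∧ A.natDegree = d ∧ Irreducible (A ^ 2 + c)} := by
    ext P
    simp only [Set.mem_ofPred_eq, Set.mem_image]
    constructor
    · rintro ⟨hP, hPi, hPd, a, ha⟩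
      have hPe : P = (a + e) ^ 2 + c := by
        have h2 : P = N + a ^ 2 := by
          rw [ha]
          linear_combination (- a ^ 2) * two0
        rw [h2, hey, hc]
        linear_combination (- a * e) * two0
      have h3 : c.degree < ((2 * d : ℕ) : WithBot ℕ) := by
        rw [degree_eq_natDegree (by rw [hc]; exact mul_ne_zero X_ne_zero (pow_ne_zero 2 hy)), hcdeg]
        have : 2 * y.natDegree + 1 < 2 * d := by omega
        exact_mod_cast this
      have hPdeg : P.degree = ((2 * d : ℕ) : WithBot ℕ) := by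
        rw [degree_eq_natDegree hP.ne_zero, hPd]
      have hae : (a + e) ^ 2 = P - c := by rw [hPe]; ring
      have h4 : (P - c).Monic := hP.sub_of_left (by rw [hPdeg]; exact h3)
      have h5 : (P - c).natDegree = 2 * d := by
        rw [natDegree_sub_eq_left_of_natDegree_lt (by rw [hPd, hcdeg]; omega), hPd]
      rw [← hae] at h4 h5
      rw [natDegree_pow] at h5
      have h6 : (a + e).leadingCoeff = 1 := by
        have h7 : (a + e).leadingCoeff ^ 2 = 1 := by
          have := h4.leadingCoeff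
          rwa [leadingCoeff_pow] at this
        have two1 : (2 : K) = 0 := CharP.cast_eq_zero K 2
        have h8 : ((a + e).leadingCoeff + 1) ^ 2 = 0 := by
          linear_combination h7 + ((a + e).leadingCoeff + 1) * two1
        have h9 : (a + e).leadingCoeff + 1 = 0 := pow_eq_zero_iff (two_ne_zero) |>.1 h8
        linear_combination h9 - two1
      refine ⟨a + e, ⟨h6, by omega, ?_⟩, hPe.symm⟩
      rw [← hPe]
      exact hPi
    · rintro ⟨A, ⟨hA, hAd, hAi⟩, rfl⟩
      have h2 : (A ^ 2).natDegree = 2 * d := by rw [natDegree_pow, hAd]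
      have h3 : c.natDegree < (A ^ 2).natDegree := by rw [h2, hcdeg]; omega
      refine ⟨?_, hAi, ?_, A + e, ?_⟩
      · exact (hA.pow 2).add_of_left (by
          rw [degree_eq_natDegree (hA.pow 2).ne_zero, degree_eq_natDegree
            (by rw [hc]; exact mul_ne_zero X_ne_zero (pow_ne_zero 2 hy))]
          exact_mod_cast h3)
      · rw [natDegree_add_eq_left_of_natDegree_lt h3, h2]
      · rw [hey, hc]
        linear_combination (- A ^ 2 - A * e - X * y ^ 2 + X * y ^ 2) * two0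
  have hinj : Function.Injective (fun A : K[X] => A ^ 2 + c) := by
    intro A B hAB
    have h2 : A ^ 2 + c = B ^ 2 + c := hAB
    have h3 : (A + B) ^ 2 = 0 := by
      have h4 : A ^ 2 = B ^ 2 := add_right_cancel h2
      linear_combination h4 + (A * B + B ^ 2) * two0
    have h5 : A + B = 0 := pow_eq_zero_iff (two_ne_zero) |>.1 h3
    linear_combination h5 - B * two0
  rw [hset, Set.ncard_image_of_injective _ hinj]
  exact h1

end Pool.Agent.H604.LD
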