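import Mathlib
import Pool.Agent.H604.LD.StmC
import Pool.Agent.H604.LD.App.A3

/-!
# The uniform theorem for `α T² + β` in residue classes (helper604)
-/

set_option autoImplicit false
set_option linter.unusedSectionVars false

namespace Pool.Agent.H604.LD

open Polynomial
open scoped Classical
open Pool.Agent.H694.Typ (Mn PU mem_Mn)
open Pool.Agent.H985.KP (PA)

/-- **Primes `α T² + β`, uniformly, in residue classes and short intervals; only `α` and `(α β)'`
must be of small degree.** -/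
theorem quadC (hb : S_bhqc) (K : Type) [Field K] [Fintype K] [CharP K 2] :
    ∃ δ θ : ℝ, 0 < δ ∧ 0 < θ ∧ ∃ d₀ : ℕ, ∀ (α β g M R : K[X]) (d l : ℕ), α ≠ 0 → IsCoprime α β →
      M.Monic → IsCoprime (α * R ^ 2 + β) M →
      ¬ IsSquare (α * β) → β.natDegree < 2 * d + α.natDegree → g.Monic → g.natDegree = d → d₀ ≤ d →
      ((α.natDegree + (derivative (α * β)).natDegree + M.natDegree + l : ℕ) : ℝ) ≤ θ * d →
      |(2 * (d : ℝ) + α.natDegree) *
          ({T : K[X] | M ∣ T - R ∧ (T - g).degree < ((d - l : ℕ) : WithBot ℕ) ∧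
            Irreducible (α * T ^ 2 + β)}.ncard : ℝ) -
        (Fintype.card K : ℝ) ^ (d - l - M.natDegree) /
          ∏ᶠ P ∈ {P : K[X] | P.Monic ∧ Irreducible P ∧ P ∣ α * M},
          (1 - 1 / (Fintype.card K : ℝ) ^ P.natDegree)| ≤
        (Fintype.card K : ℝ) ^ ((1 - δ) * d) := by
  obtain ⟨δ, θ, hδ, hθ, d₀, h⟩ := hb K
  obtain ⟨d₁, hd₁⟩ := exists_nat_gt (4 / θ)
  refine ⟨δ, θ / 4, hδ, by positivity, max d₀ (max d₁ 1), ?_⟩
  intro α β g M R d l hα hc hM hRM hsq hβ hg hgd hd hcd
  have two0 := FINM.two0 (K := K)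
  obtain ⟨c₀, y, hc0⟩ := FINM.decomp (α * β)
  set e : K[X] := c₀ / α with he
  set r : K[X] := c₀ % α with hr
  have hcr : c₀ = α * e + r := (EuclideanDomain.div_add_mod c₀ α).symm
  set β₁ : K[X] := β + α * e ^ 2 with hβ₁
  have h1 : α * β₁ = r ^ 2 + X * y ^ 2 := by
    rw [hβ₁, mul_add, hc0, hcr]
    linear_combination (α * e * r + α ^ 2 * e ^ 2) * two0
  have hco : IsCoprime α β₁ := by
    rw [hβ₁]
    exact hc.add_mul_left_right (e ^ 2)
  have hns : ¬ IsSquare (α * β₁) := by
    rintro ⟨z, hz⟩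
    apply hsq
    refine ⟨z + α * e, ?_⟩
    have h2 : α * β = α * β₁ + (α * e) ^ 2 := by
      rw [hβ₁]
      linear_combination (- α ^ 2 * e ^ 2) * two0
    rw [h2, hz]
    linear_combination (- (z * (α * e))) * two0
  have hy : y ≠ 0 := by
    rintro rfl
    exact hns ⟨r, by rw [h1]; ring⟩
  have hder : (derivative (α * β)).natDegree = 2 * y.natDegree := by
    rw [FINM.der hc0, natDegree_pow]
  have hβ10 : β₁ ≠ 0 := by
    intro h0
    rw [h0, mul_zero] at hns
    exact hns ⟨0, by ring⟩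
  have hβ0 : β ≠ 0 := by
    rintro rfl
    rw [mul_zero] at hsq
    exact hsq ⟨0, by ring⟩
  have hdr : r.natDegree ≤ α.natDegree := by
    by_cases hr0 : r = 0
    · rw [hr0, natDegree_zero]
      exact Nat.zero_le _
    · exact natDegree_le_natDegree (le_of_lt (EuclideanDomain.mod_lt c₀ hα))
  have hdb1 : β₁.natDegree ≤ 2 * α.natDegree + 2 * y.natDegree + 1 := by
    have h3 : α.natDegree + β₁.natDegree = (r ^ 2 + X * y ^ 2).natDegree := by
      rw [← h1, natDegree_mul hα hβ10]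
    have h4 := (A2.deg_sq_add r y).2.2
    omega
  have hde : e ≠ 0 → e.natDegree < d := by
    intro he0
    have h3 := (A2.deg_sq_add c₀ y).1
    rw [← hc0, natDegree_mul hα hβ0] at h3
    have h4 : e.natDegree + α.natDegree ≤ c₀.natDegree := by
      have hae : (α * e).natDegree = α.natDegree + e.natDegree := natDegree_mul hα he0
      have h5 : (α * e + r).natDegree = (α * e).natDegree := by
        apply natDegree_add_eq_left_of_degree_lt
        refine lt_of_lt_of_le (EuclideanDomain.mod_lt c₀ hα) ?_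
        rw [degree_mul]
        exact le_add_of_nonneg_right (zero_le_degree_iff.2 he0)
      rw [hcr, h5, hae]
      omega
    omega
  have hd1 : 1 ≤ d := le_trans (le_trans (le_max_right _ _) (le_max_right _ _)) hd
  have hed : e.degree < (d : WithBot ℕ) := by
    by_cases he0 : e = 0
    · rw [he0, degree_zero]
      exact WithBot.bot_lt_coe d
    · rw [degree_eq_natDegree he0]
      exact_mod_cast hde he0
  have hgdeg : g.degree = (d : WithBot ℕ) := by
    rw [degree_eq_natDegree hg.ne_zero, hgd]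
  have hge : (g + e).Monic := hg.add_of_left (by rw [hgdeg]; exact hed)
  have hged : (g + e).natDegree = d := by
    rw [natDegree_add_eq_left_of_degree_lt (by rw [hgdeg]; exact hed), hgd]
  have hcd' : ((α.natDegree + β₁.natDegree + M.natDegree + l : ℕ) : ℝ) ≤ θ * d := by
    have h3 : α.natDegree + β₁.natDegree + M.natDegree + l ≤
        3 * (α.natDegree + (derivative (α * β)).natDegree + M.natDegree + l) + 1 := by
      rw [hder]
      omega
    have h4 : ((α.natDegree + β₁.natDegree + M.natDegree + l : ℕ) : ℝ) ≤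
        3 * ((α.natDegree + (derivative (α * β)).natDegree + M.natDegree + l : ℕ) : ℝ) + 1 := by
      exact_mod_cast h3
    have h5 : (1 : ℝ) ≤ θ / 4 * d := by
      have h6 : (d₁ : ℝ) ≤ d := by
        exact_mod_cast le_trans (le_trans (le_max_left _ _) (le_max_right _ _)) hd
      have h7 : 4 / θ ≤ (d : ℝ) := le_trans hd₁.le h6
      rw [div_le_iff₀ hθ] at h7
      linarith
    linarith
  have hRM' : IsCoprime (α * (R + e) ^ 2 + β₁) M := by
    have h3 : α * (R + e) ^ 2 + β₁ = α * R ^ 2 + β := by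
      rw [hβ₁]
      linear_combination (α * R * e + α * e ^ 2) * two0
    rw [h3]
    exact hRM
  have h2 := h α β₁ (g + e) M (R + e) l d hα hco hns (le_trans (le_max_left _ _) hd) hge hged hM
    hRM' hcd'
  have hset : ({T : K[X] | M ∣ T - R ∧ (T - g).degree < ((d - l : ℕ) : WithBot ℕ) ∧
      Irreducible (α * T ^ 2 + β)}.ncard : ℝ) =
      (((Mn K d).filter (fun T => (T - (g + e)).degree < ((d - l : ℕ) : WithBot ℕ) ∧
            M ∣ T - (R + e) ∧ Irreducible (α * T ^ 2 + β₁))).card : ℝ) := by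
    rw [← Set.ncard_coe_finset]
    congr 1
    have h3 : Function.Injective (fun T : K[X] => T + e) := add_left_injective e
    rw [← Set.ncard_image_of_injective _ h3]
    congr 1
    ext T
    simp only [Set.mem_image, Set.mem_ofPred_eq, Finset.coe_filter, mem_Mn]
    have key : ∀ S : K[X], α * (S + e) ^ 2 + β₁ = α * S ^ 2 + β := by
      intro S
      rw [hβ₁]
      linear_combination (α * S * e + α * e ^ 2) * two0
    constructor
    · rintro ⟨S, ⟨hMS, h4, h5⟩, rfl⟩
      have h6 : (S - g).degree < g.degree := by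
        rw [hgdeg]
        refine lt_of_lt_of_le h4 ?_
        exact_mod_cast Nat.sub_le d l
      have h7 : S + e - (g + e) = S - g := by ring
      have h8 : S + e = (g + e) + (S - g) := by ring
      have h9 : (g + e).degree = (d : WithBot ℕ) := by
        rw [degree_eq_natDegree hge.ne_zero, hged]
      have h10 : S + e - (R + e) = S - R := by ring
      refine ⟨⟨?_, ?_⟩, ?_, ?_, ?_⟩
      · rw [h8]
        exact hge.add_of_left (by rw [h9, ← hgdeg]; exact h6)
      · rw [h8, natDegree_add_eq_left_of_degree_lt (by rw [h9, ← hgdeg]; exact h6), hged]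
      · rw [h7]
        exact h4
      · rw [h10]
        exact hMS
      · rw [key]
        exact h5
    · rintro ⟨-, h4, hMS, h5⟩
      refine ⟨T - e, ⟨?_, ?_, ?_⟩, by ring⟩
      · have h7 : T - e - R = T - (R + e) := by ring
        rw [h7]
        exact hMS
      · have h7 : T - e - g = T - (g + e) := by ring
        rw [h7]
        exact h4
      · rw [← key]
        rw [sub_add_cancel]
        exact h5
  rw [hset]
  exact h2

theorem prod_bd {K : Type} [Field K] [Fintype K] (N : K[X]) :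
    0 < ∏ᶠ P ∈ {P : K[X] | P.Monic ∧ Irreducible P ∧ P ∣ N},
      (1 - 1 / (Fintype.card K : ℝ) ^ P.natDegree) ∧
    ∏ᶠ P ∈ {P : K[X] | P.Monic ∧ Irreducible P ∧ P ∣ N},
      (1 - 1 / (Fintype.card K : ℝ) ^ P.natDegree) ≤ 1 := by
  have hq : (1 : ℝ) < (Fintype.card K : ℝ) := by
    exact_mod_cast Fintype.one_lt_card (α := K)
  have h1 : ∀ P : K[X], P ∈ {P : K[X] | P.Monic ∧ Irreducible P ∧ P ∣ N} →
      0 < (1 - 1 / (Fintype.card K : ℝ) ^ P.natDegree) ∧
      (1 - 1 / (Fintype.card K : ℝ) ^ P.natDegree) ≤ 1 := by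
    rintro P ⟨-, hP, -⟩
    have h2 : (1 : ℝ) < (Fintype.card K : ℝ) ^ P.natDegree :=
      one_lt_pow₀ hq hP.natDegree_pos.ne'
    have h3 : 1 / (Fintype.card K : ℝ) ^ P.natDegree < 1 := by
      rw [div_lt_one (by linarith)]
      exact h2
    have h4 : 0 < 1 / (Fintype.card K : ℝ) ^ P.natDegree := by positivity
    constructor <;> linarith
  constructor
  · apply finprod_mem_induction (fun x : ℝ => 0 < x)
    · exact one_pos
    · exact fun x y hx hy => mul_pos hx hy
    · exact fun P hP => (h1 P hP).1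
  · have h5 : 0 < (∏ᶠ P ∈ {P : K[X] | P.Monic ∧ Irreducible P ∧ P ∣ N},
        (1 - 1 / (Fintype.card K : ℝ) ^ P.natDegree)) ∧
        (∏ᶠ P ∈ {P : K[X] | P.Monic ∧ Irreducible P ∧ P ∣ N},
        (1 - 1 / (Fintype.card K : ℝ) ^ P.natDegree)) ≤ 1 := by
      apply finprod_mem_induction (fun x : ℝ => 0 < x ∧ x ≤ 1)
      · exact ⟨one_pos, le_rfl⟩
      · exact fun x y hx hy => ⟨mul_pos hx.1 hy.1, mul_le_one₀ hx.2 hy.1.le hy.2⟩
      · exact fun P hP => h1 P hP
    exact h5.2

/-- The least prime `α T² + β`, `T` in a residue class. -/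
theorem leastC (hb : S_bhqc) (K : Type) [Field K] [Fintype K] [CharP K 2] :
    ∃ B : ℕ, ∀ (α β M R : K[X]) (d : ℕ), α ≠ 0 → IsCoprime α β → M.Monic →
      IsCoprime (α * R ^ 2 + β) M → ¬ IsSquare (α * β) → β.natDegree < 2 * d + α.natDegree →
      B * (α.natDegree + (derivative (α * β)).natDegree + M.natDegree + 1) ≤ d →
      ∃ T : K[X], T.Monic ∧ T.natDegree = d ∧ M ∣ T - R ∧ Irreducible (α * T ^ 2 + β) := by
  obtain ⟨δ, θ, hδ, hθ, d₀, h⟩ := quadC hb K
  have hq : (2 : ℝ) ≤ (Fintype.card K : ℝ) := by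
    exact_mod_cast Fintype.one_lt_card (α := K)
  obtain ⟨d₁, hd₁⟩ := exists_nat_gt (2 / δ)
  obtain ⟨d₂, hd₂⟩ := exists_nat_gt (1 / θ)
  refine ⟨d₀ + d₁ + d₂ + 1, fun α β M R d hα hc hM hRM hsq hβ hB => ?_⟩
  set n : ℕ := α.natDegree + (derivative (α * β)).natDegree + M.natDegree with hn
  have hB1 : d₀ + d₁ + d₂ + 1 ≤ d := by
    refine le_trans ?_ hB
    exact Nat.le_mul_of_pos_right _ (Nat.succ_pos _)
  have hx : ∀ (x : ℝ) (k : ℕ), 0 < x → 1 / x < (k : ℝ) → k ≤ d₀ + d₁ + d₂ + 1 →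
      ((n + 1 : ℕ) : ℝ) ≤ x * d := by
    intro x k hx hk hk'
    have h1 : k * (n + 1) ≤ d := le_trans (Nat.mul_le_mul hk' le_rfl) hB
    have h2 : (k : ℝ) * ((n + 1 : ℕ) : ℝ) ≤ d := by exact_mod_cast h1
    have h3 : (1 / x) * ((n + 1 : ℕ) : ℝ) ≤ d :=
      le_trans (mul_le_mul_of_nonneg_right hk.le (Nat.cast_nonneg _)) h2
    rw [one_div, inv_mul_le_iff₀ hx] at h3
    exact h3
  have h1 := hx θ d₂ hθ hd₂ (by omega)
  have h2 := hx (δ / 2) d₁ (by positivity) (by rw [one_div_div]; exact hd₁) (by omega)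
  have h3 := h α β (X ^ d) M R d 0 hα hc hM hRM hsq hβ (monic_X_pow d) (natDegree_X_pow d)
    (by omega) (by
      rw [add_zero]
      refine le_trans ?_ h1
      exact_mod_cast Nat.le_succ _)
  by_contra hne
  have h4 : {T : K[X] | M ∣ T - R ∧ (T - X ^ d).degree < ((d - 0 : ℕ) : WithBot ℕ) ∧
      Irreducible (α * T ^ 2 + β)} = ∅ := by
    ext T
    simp only [Set.mem_ofPred_eq, Set.mem_empty_iff_false, iff_false, Nat.sub_zero]
    rintro ⟨h5, h6, h7⟩
    have h8 := (interval_eq (monic_X_pow d) (natDegree_X_pow d) T).1 h6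
    exact hne ⟨T, h8.1, h8.2, h5, h7⟩
  rw [h4, Set.ncard_empty, Nat.cast_zero, mul_zero, zero_sub, abs_neg, Nat.sub_zero] at h3
  obtain ⟨hp0, hp1⟩ := prod_bd (α * M)
  have hq0 : (0 : ℝ) < (Fintype.card K : ℝ) := by linarith
  have hMd : M.natDegree ≤ d := by
    have : 1 * (n + 1) ≤ (d₀ + d₁ + d₂ + 1) * (n + 1) := Nat.mul_le_mul (by omega) le_rfl
    omega
  have h5 : (Fintype.card K : ℝ) ^ (d - M.natDegree) ≤ (Fintype.card K : ℝ) ^ ((1 - δ) * d) := by
    refine le_trans ?_ h3
    refine le_trans ?_ (le_abs_self _)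
    rw [le_div_iff₀ hp0]
    exact mul_le_of_le_one_right (by positivity) hp1
  have h6 : (Fintype.card K : ℝ) ^ ((1 - δ) * d) < (Fintype.card K : ℝ) ^ (d - M.natDegree) := by
    rw [← Real.rpow_natCast, Nat.cast_sub hMd]
    apply Real.rpow_lt_rpow_of_exponent_lt (by linarith)
    have h7 : (M.natDegree : ℝ) ≤ ((n + 1 : ℕ) : ℝ) := by
      have : M.natDegree ≤ n + 1 := by omega
      exact_mod_cast this
    have h8 : (0 : ℝ) < ((n + 1 : ℕ) : ℝ) := by positivity
    nlinarith
  exact absurd h5 (not_le.2 h6)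

end Pool.Agent.H604.LD
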