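import Mathlib
import Pool.Agent.H604.LD.NearP
import Pool.Agent.H604.MT.StmV
import Pool.Agent.H985.KP.Cnt

/-!
# Pairs of primes `a² + r`, `a² + r'`: upper bound sieve (helper604)

The sieve weights are those of `Pool.Agent.H524.MT` (helper524, helper183, helper721, helper550).
-/

set_option autoImplicit false
set_option linter.unusedSectionVars false

namespace Pool.Agent.H604.LD.Sq

open Polynomial Finset
open scoped Classical
open Pool.Agent.H985.KP (PA)
open Pool.Agent.H985.KP.Cnt (card_degLT)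
open Pool.Agent.H694.Typ (Mn PU mem_Mn mem_PU card_Mn q_ge sum_PU Irn mem_Irn irn_one_le wt wt_le_half
  geo_half_le)
open Pool.Agent.H524.MT (BH Loc PS VR Ac RW QQ rwt S_one S_bhk S_mert)

/-- The number of the classes sifted. -/
noncomputable def om {K : Type} [Field K] (Δ P : K[X]) : ℕ := if P ∣ Δ then 1 else 2

/-- The product over the primes `P ∣ Δ` of degree at most `z`. -/
noncomputable def GG {K : Type} [Field K] [Fintype K] (z : ℕ) (Δ : K[X]) : ℝ :=
  ∏ P ∈ (PU K z).filter (fun P => P ∣ Δ), (1 - 1 / (Fintype.card K : ℝ) ^ P.natDegree)⁻¹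

section roots
variable {K : Type} [Field K] [Fintype K] [CharP K 2]

theorem root_iff {P : K[X]} (hP : P.Monic) (hPi : Irreducible P) (r : K[X]) :
    ∃ s : K[X], s.degree < P.degree ∧ ∀ c : K[X], c.degree < P.degree → (P ∣ c ^ 2 + r ↔ c = s) := by
  have h2 : (2 : K[X]) = 0 := CharTwo.two_eq_zero
  obtain ⟨x, hx⟩ := NearPL.sq_surj hP hPi.squarefree r
  have h1 : P ∣ (x %ₘ P) ^ 2 + r := by
    obtain ⟨k, hk⟩ := hx
    have h3 := modByMonic_add_div x P
    refine ⟨k + P * (x /ₘ P) ^ 2 - 2 * x * (x /ₘ P), ?_⟩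
    have h4 : x %ₘ P = x - P * (x /ₘ P) := by linear_combination h3
    rw [h4]
    linear_combination hk + r * h2
  refine ⟨x %ₘ P, degree_modByMonic_lt x hP, fun c hc => ⟨fun h => ?_, fun h => by rw [h]; exact h1⟩⟩
  have h3 : P ∣ (c - x %ₘ P) ^ 2 := by
    have h4 : (c - x %ₘ P) ^ 2 = (c ^ 2 + r) + ((x %ₘ P) ^ 2 + r) := by
      linear_combination (- c * (x %ₘ P) - r) * h2
    rw [h4]
    exact dvd_add h h1
  have h5 := hPi.prime.dvd_of_dvd_pow h3
  have h6 : (c - x %ₘ P).degree < P.degree :=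
    lt_of_le_of_lt (degree_sub_le _ _) (max_lt hc (degree_modByMonic_lt x hP))
  exact sub_eq_zero.1 (eq_zero_of_dvd_of_degree_lt h5 h6)

theorem num {P : K[X]} (hP : P.Monic) (hPi : Irreducible P) (r r' : K[X]) :
    {c : K[X] | c.degree < P.degree ∧ P ∣ (c ^ 2 + r) * (c ^ 2 + r')}.ncard = om (r - r') P := by
  have h2 : (2 : K[X]) = 0 := CharTwo.two_eq_zero
  obtain ⟨s, hs, hs1⟩ := root_iff hP hPi r
  obtain ⟨s', hs', hs1'⟩ := root_iff hP hPi r'
  have hset : {c : K[X] | c.degree < P.degree ∧ P ∣ (c ^ 2 + r) * (c ^ 2 + r')} = {s, s'} := by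
    ext c
    rw [Set.mem_ofPred_eq, Set.mem_insert_iff, Set.mem_singleton_iff]
    constructor
    · rintro ⟨h1, h3⟩
      rcases hPi.prime.dvd_or_dvd h3 with h4 | h4
      · exact Or.inl ((hs1 c h1).1 h4)
      · exact Or.inr ((hs1' c h1).1 h4)
    · rintro (h1 | h1)
      · rw [h1]
        exact ⟨hs, dvd_mul_of_dvd_left ((hs1 s hs).2 rfl) _⟩
      · rw [h1]
        exact ⟨hs', dvd_mul_of_dvd_right ((hs1' s' hs').2 rfl) _⟩
  rw [hset]
  have hd := (hs1 s hs).2 rfl
  have hd' := (hs1' s' hs').2 rfl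
  by_cases h : P ∣ r - r'
  · have h3 : s = s' := by
      apply (hs1' s hs).1
      have h4 : s ^ 2 + r' = (s ^ 2 + r) - (r - r') := by ring
      rw [h4]
      exact dvd_sub hd h
    rw [h3, Set.pair_eq_singleton, Set.ncard_singleton, om, if_pos h]
  · have h3 : s ≠ s' := by
      rintro rfl
      apply h
      have h4 : r - r' = (s ^ 2 + r) - (s ^ 2 + r') := by ring
      rw [h4]
      exact dvd_sub hd hd'
    rw [Set.ncard_pair h3, om, if_neg h]

theorem per (r r' P a u : K[X]) :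
    P ∣ ((a + P * u) ^ 2 + r) * ((a + P * u) ^ 2 + r') ↔ P ∣ (a ^ 2 + r) * (a ^ 2 + r') := by
  apply (dvd_iff_dvd_of_dvd_sub _)
  refine ⟨(2 * a * u + P * u ^ 2) * ((a + P * u) ^ 2 + r') +
    (2 * a * u + P * u ^ 2) * (a ^ 2 + r), ?_⟩
  ring

end roots

section small
variable {K : Type} [Field K] [Fintype K]

/-- The product of the small primes. -/
noncomputable def M0 (K : Type) [Field K] [Fintype K] : K[X] := ∏ P ∈ PU K 5, P

theorem M0_monic : (M0 K).Monic := monic_prod_of_monic _ _ fun _ hP => (mem_PU.1 hP).1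

theorem big {P : K[X]} (hP : P.Monic) (hPi : Irreducible P) (h : ¬ P ∣ M0 K) :
    64 ≤ Fintype.card K ^ P.natDegree := by
  have h1 : 6 ≤ P.natDegree := by
    by_contra hcon
    apply h
    exact dvd_prod_of_mem _ (mem_PU.2 ⟨hP, hPi, by omega⟩)
  calc 64 = 2 ^ 6 := by norm_num
    _ ≤ 2 ^ P.natDegree := Nat.pow_le_pow_right (by norm_num) h1
    _ ≤ Fintype.card K ^ P.natDegree := Nat.pow_le_pow_left (Fintype.one_lt_card (α := K)) _

theorem x_bd {P : K[X]} (hP : Irreducible P) :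
    0 < 1 / (Fintype.card K : ℝ) ^ P.natDegree ∧ 1 / (Fintype.card K : ℝ) ^ P.natDegree ≤ 1 / 2 := by
  have hq := q_ge (k := K)
  refine ⟨by positivity, ?_⟩
  apply one_div_le_one_div_of_le (by norm_num)
  calc (2 : ℝ) ≤ Fintype.card K := hq
    _ = (Fintype.card K : ℝ) ^ 1 := (pow_one _).symm
    _ ≤ _ := pow_le_pow_right₀ (by linarith) hP.natDegree_pos

theorem dvd_M0 {P : K[X]} (hP : P.Monic) (hPi : Irreducible P) (h : P ∣ M0 K) : P ∈ PU K 5 := by
  obtain ⟨Q, hQ, hPQ⟩ := (hPi.prime.dvd_finsetProd_iff _).1 h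
  have h1 := mem_PU.1 hQ
  have h2 : P = Q := eq_of_monic_of_associated hP h1.1 (hPi.associated_of_dvd h1.2.1 hPQ)
  rw [h2]
  exact hQ

theorem VR_le (hm : S_mert) {z : ℕ} (hz : 1 ≤ z) (Δ : K[X]) :
    VR (M0 K) z (om Δ) ≤ 4 ^ (PU K 5).card / (z : ℝ) ^ 2 * GG z Δ := by
  have hz0 : (0 : ℝ) < z := by exact_mod_cast hz
  obtain ⟨C, hC, hm1, _⟩ := hm K
  have hm2 := (hm1 z hz).1
  obtain ⟨x, hxd⟩ : ∃ x : K[X] → ℝ, x = fun P => 1 / (Fintype.card K : ℝ) ^ P.natDegree := ⟨_, rfl⟩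
  have hxP : ∀ P, 1 / (Fintype.card K : ℝ) ^ P.natDegree = x P := fun P => by rw [hxd]
  have hx : ∀ P ∈ PU K z, 0 < x P ∧ x P ≤ 1 / 2 := fun P hP => by
    rw [hxd]
    exact x_bd (mem_PU.1 hP).2.1
  simp only [hxP] at hm2
  have hV : VR (M0 K) z (om Δ) = ∏ P ∈ PS K (M0 K) z, (1 - (om Δ P : ℝ) * x P) := by
    unfold VR
    refine prod_congr rfl fun P _ => ?_
    rw [hxd, mul_one_div]
  have hG : GG z Δ = ∏ P ∈ (PU K z).filter (fun P => P ∣ Δ), (1 - x P)⁻¹ := by
    unfold GG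
    refine prod_congr rfl fun P _ => ?_
    rw [hxd]
  rw [hV, hG]
  obtain ⟨F, hF⟩ : ∃ F : K[X] → ℝ, F = fun P => if P ∣ Δ then (1 - x P)⁻¹ else 1 := ⟨_, rfl⟩
  have hF1 : ∀ P ∈ PU K z, 1 ≤ F P := by
    intro P hP
    rw [hF]
    show 1 ≤ if P ∣ Δ then (1 - x P)⁻¹ else 1
    split_ifs
    · exact (one_le_inv₀ (by linarith [hx P hP])).2 (by linarith [hx P hP])
    · exact le_rfl
  have h1 : ∏ P ∈ PS K (M0 K) z, (1 - (om Δ P : ℝ) * x P) ≤
      ∏ P ∈ PS K (M0 K) z, ((1 - x P) ^ 2 * F P) := by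
    apply prod_le_prod
    · intro P hP
      have h2 := hx P (mem_filter.1 hP).1
      unfold om
      split_ifs
      · rw [Nat.cast_one]
        linarith
      · rw [Nat.cast_ofNat]
        linarith
    · intro P hP
      have h2 := hx P (mem_filter.1 hP).1
      rw [hF]
      show _ ≤ (1 - x P) ^ 2 * (if P ∣ Δ then (1 - x P)⁻¹ else 1)
      unfold om
      split_ifs
      · rw [Nat.cast_one, sq, mul_assoc, mul_inv_cancel₀ (by linarith), one_mul, mul_one]
      · rw [Nat.cast_ofNat]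
        nlinarith
  have h2 : ∏ P ∈ PS K (M0 K) z, F P ≤ ∏ P ∈ (PU K z).filter (fun P => P ∣ Δ), (1 - x P)⁻¹ := by
    have h3 : ∏ P ∈ (PU K z).filter (fun P => P ∣ Δ), (1 - x P)⁻¹ = ∏ P ∈ PU K z, F P := by
      rw [prod_filter, hF]
    rw [h3, ← prod_filter_mul_prod_filter_not (PU K z) (fun P => P ∣ M0 K) F]
    apply le_mul_of_one_le_left
    · apply prod_nonneg
      intro P hP
      linarith [hF1 P (mem_filter.1 hP).1]
    · calc (1 : ℝ) = ∏ P ∈ (PU K z).filter (fun P => P ∣ M0 K), (1 : ℝ) := by rw [prod_const_one]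
        _ ≤ _ := prod_le_prod (fun _ _ => zero_le_one) fun P hP => hF1 P (mem_filter.1 hP).1
  have h3 : ∏ P ∈ PS K (M0 K) z, (1 - x P) ^ 2 ≤ 4 ^ (PU K 5).card / (z : ℝ) ^ 2 := by
    have h4 := prod_filter_mul_prod_filter_not (PU K z) (fun P => P ∣ M0 K)
      (fun P => (1 - x P) ^ 2)
    have h5 : (1 / 4 : ℝ) ^ (PU K 5).card ≤
        ∏ P ∈ (PU K z).filter (fun P => P ∣ M0 K), (1 - x P) ^ 2 := by
      have hsub : (PU K z).filter (fun P => P ∣ M0 K) ⊆ PU K 5 := by
        intro P hP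
        rw [mem_filter, mem_PU] at hP
        exact dvd_M0 hP.1.1 hP.1.2.1 hP.2
      calc (1 / 4 : ℝ) ^ (PU K 5).card ≤
          (1 / 4 : ℝ) ^ ((PU K z).filter (fun P => P ∣ M0 K)).card :=
            pow_le_pow_of_le_one (by norm_num) (by norm_num) (card_le_card hsub)
        _ = ∏ P ∈ (PU K z).filter (fun P => P ∣ M0 K), (1 / 4 : ℝ) := by rw [prod_const]
        _ ≤ _ := by
          apply prod_le_prod
          · intro P _
            norm_num
          · intro P hP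
            have h6 := hx P (mem_filter.1 hP).1
            nlinarith
    have h6 : ∏ P ∈ PU K z, (1 - x P) ^ 2 ≤ 1 / (z : ℝ) ^ 2 := by
      rw [prod_pow]
      have h7 : 0 < ∏ P ∈ PU K z, (1 - x P) := prod_pos fun P hP => by linarith [hx P hP]
      have h8 : ∏ P ∈ PU K z, (1 - x P) ≤ 1 / (z : ℝ) := by
        rw [prod_inv_distrib] at hm2
        rw [le_div_iff₀ hz0]
        calc (∏ P ∈ PU K z, (1 - x P)) * z ≤
            (∏ P ∈ PU K z, (1 - x P)) * (∏ P ∈ PU K z, (1 - x P))⁻¹ :=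
              mul_le_mul_of_nonneg_left hm2 h7.le
          _ = 1 := mul_inv_cancel₀ h7.ne'
      calc (∏ P ∈ PU K z, (1 - x P)) ^ 2 ≤ (1 / (z : ℝ)) ^ 2 := pow_le_pow_left₀ h7.le h8 2
        _ = 1 / (z : ℝ) ^ 2 := by rw [one_div_pow]
    have h7 : 0 ≤ ∏ P ∈ PS K (M0 K) z, (1 - x P) ^ 2 := prod_nonneg fun P _ => sq_nonneg _
    have h8 : (1 / 4 : ℝ) ^ (PU K 5).card * ∏ P ∈ PS K (M0 K) z, (1 - x P) ^ 2 ≤
        1 / (z : ℝ) ^ 2 := by
      calc _ ≤ (∏ P ∈ (PU K z).filter (fun P => P ∣ M0 K), (1 - x P) ^ 2) *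
            ∏ P ∈ PS K (M0 K) z, (1 - x P) ^ 2 := mul_le_mul_of_nonneg_right h5 h7
        _ = ∏ P ∈ PU K z, (1 - x P) ^ 2 := h4
        _ ≤ _ := h6
    rw [one_div_pow, one_div_mul_eq_div, div_le_iff₀ (by positivity)] at h8
    calc _ ≤ 1 / (z : ℝ) ^ 2 * 4 ^ (PU K 5).card := h8
      _ = _ := by ring
  calc _ ≤ _ := h1
    _ = (∏ P ∈ PS K (M0 K) z, (1 - x P) ^ 2) * ∏ P ∈ PS K (M0 K) z, F P := prod_mul_distrib
    _ ≤ _ := by
      apply mul_le_mul h3 h2
      · apply prod_nonneg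
        intro P hP
        linarith [hF1 P (mem_filter.1 hP).1]
      · positivity

/-- The polynomials of degree less than `H`. -/
noncomputable def Bx (K : Type) [Field K] [Fintype K] (H : ℕ) : Finset K[X] :=
  (card_degLT (K := K) H).1.toFinset

theorem mem_Bx {H : ℕ} {r : K[X]} : r ∈ Bx K H ↔ r.degree < (H : WithBot ℕ) := by
  unfold Bx
  rw [Set.Finite.mem_toFinset]
  rfl

theorem card_Bx (H : ℕ) : (Bx K H).card = Fintype.card K ^ H := by
  unfold Bx
  rw [← Set.ncard_eq_toFinset_card _ (card_degLT (K := K) H).1]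
  exact (card_degLT (K := K) H).2

theorem card_mult {D : K[X]} (hD : D.Monic) (H : ℕ) :
    ((((Bx K H).filter (fun Δ => Δ ≠ 0 ∧ D ∣ Δ)).card : ℕ) : ℝ) ≤
      (Fintype.card K : ℝ) ^ H / (Fintype.card K : ℝ) ^ D.natDegree := by
  have hq := q_ge (k := K)
  rcases lt_or_ge D.natDegree H with h | h
  · have h1 : (Bx K H).filter (fun Δ => Δ ≠ 0 ∧ D ∣ Δ) ⊆
        (Bx K (H - D.natDegree)).image (fun u => D * u) := by
      intro Δ hΔ
      rw [mem_filter, mem_Bx] at hΔ
      obtain ⟨h2, h3, u, hu⟩ := hΔ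
      rw [mem_image]
      refine ⟨u, ?_, hu.symm⟩
      rw [mem_Bx]
      have hu0 : u ≠ 0 := by
        rintro rfl
        apply h3
        rw [hu, mul_zero]
      have h4 : Δ.natDegree = D.natDegree + u.natDegree := by
        rw [hu, natDegree_mul hD.ne_zero hu0]
      have h5 := (natDegree_lt_iff_degree_lt h3).2 h2
      exact (natDegree_lt_iff_degree_lt hu0).1 (by omega)
    calc (((Bx K H).filter (fun Δ => Δ ≠ 0 ∧ D ∣ Δ)).card : ℝ) ≤
          ((Bx K (H - D.natDegree)).card : ℝ) := by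
            exact_mod_cast (card_le_card h1).trans card_image_le
      _ = _ := by
        rw [card_Bx, Nat.cast_pow, pow_sub₀ _ (by positivity) h.le, div_eq_mul_inv]
  · have h1 : (Bx K H).filter (fun Δ => Δ ≠ 0 ∧ D ∣ Δ) = ∅ := by
      rw [filter_eq_empty_iff]
      intro Δ hΔ h2
      rw [mem_Bx] at hΔ
      have h3 := natDegree_le_of_dvd h2.2 h2.1
      have h4 := (natDegree_lt_iff_degree_lt h2.1).2 hΔ
      omega
    rw [h1, card_empty, Nat.cast_zero]
    positivity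

theorem prod_dvd_iff {T : Finset K[X]} {z : ℕ} (hT : T ⊆ PU K z) (Δ : K[X]) :
    (∀ P ∈ T, P ∣ Δ) ↔ (∏ P ∈ T, P) ∣ Δ := by
  constructor
  · intro h
    apply Finset.prod_dvd_of_coprime
    · intro P hP Q hQ hPQ
      have h1 := mem_PU.1 (hT hP)
      have h2 := mem_PU.1 (hT hQ)
      refine (h1.2.1.coprime_iff_not_dvd).2 fun h3 => hPQ ?_
      exact eq_of_monic_of_associated h1.1 h2.1 (h1.2.1.associated_of_dvd h2.2.1 h3)
    · exact h
  · intro h P hP
    exact (dvd_prod_of_mem _ hP).trans h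

theorem sum_sq (z : ℕ) : ∑ P ∈ PU K z, (1 / (Fintype.card K : ℝ) ^ P.natDegree) ^ 2 ≤ 1 := by
  have hq := q_ge (k := K)
  rw [sum_PU]
  calc ∑ j ∈ Icc 1 z, ∑ P ∈ Irn K j, (1 / (Fintype.card K : ℝ) ^ P.natDegree) ^ 2 ≤
      ∑ j ∈ Icc 1 z, (1 / 2 : ℝ) ^ j := by
        apply sum_le_sum
        intro j hj
        rw [mem_Icc] at hj
        have h1 : ∑ P ∈ Irn K j, (1 / (Fintype.card K : ℝ) ^ P.natDegree) ^ 2 =
            ((Irn K j).card : ℝ) * (1 / (Fintype.card K : ℝ) ^ j) ^ 2 := by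
          rw [sum_congr rfl fun P hP => by rw [(mem_Irn.1 hP).2.1], sum_const, nsmul_eq_mul]
        have h2 : ((Irn K j).card : ℝ) ≤ (Fintype.card K : ℝ) ^ j := by
          have h3 := irn_one_le (k := K) (d := j) (by omega)
          have h4 : (Irn K j).card ≤ Fintype.card K ^ j := by nlinarith
          exact_mod_cast h4
        rw [h1]
        calc ((Irn K j).card : ℝ) * (1 / (Fintype.card K : ℝ) ^ j) ^ 2 ≤
            (Fintype.card K : ℝ) ^ j * (1 / (Fintype.card K : ℝ) ^ j) ^ 2 :=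
              mul_le_mul_of_nonneg_right h2 (by positivity)
          _ = (1 / (Fintype.card K : ℝ)) ^ j := by
            simp only [one_div_pow]
            field_simp
          _ ≤ (1 / 2 : ℝ) ^ j := by
            apply pow_le_pow_left₀ (by positivity)
            exact one_div_le_one_div_of_le (by norm_num) hq
    _ ≤ (1 / 2 : ℝ) ^ 0 := geo_half_le 0 z
    _ = 1 := pow_zero _

theorem GG_nonneg (z : ℕ) (Δ : K[X]) : 0 ≤ GG z Δ := by
  unfold GG
  apply prod_nonneg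
  intro P hP
  have := x_bd (mem_PU.1 (mem_filter.1 hP).1).2.1
  exact inv_nonneg.2 (by linarith)

theorem GG_mono {z y : ℕ} (h : z ≤ y) (Δ : K[X]) : GG z Δ ≤ GG y Δ := by
  have hF1 : ∀ P ∈ (PU K y).filter (fun P => P ∣ Δ),
      1 ≤ (1 - 1 / (Fintype.card K : ℝ) ^ P.natDegree)⁻¹ := by
    intro P hP
    have := x_bd (mem_PU.1 (mem_filter.1 hP).1).2.1
    exact (one_le_inv₀ (by linarith)).2 (by linarith)
  unfold GG
  rw [← prod_filter_mul_prod_filter_not ((PU K y).filter (fun P => P ∣ Δ)) (fun P => P ∈ PU K z)]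
  have h1 : (PU K z).filter (fun P => P ∣ Δ) =
      ((PU K y).filter (fun P => P ∣ Δ)).filter (fun P => P ∈ PU K z) := by
    ext P
    simp only [mem_filter, mem_PU]
    constructor
    · rintro ⟨⟨h2, h3, h4⟩, h5⟩
      exact ⟨⟨⟨h2, h3, by omega⟩, h5⟩, h2, h3, h4⟩
    · rintro ⟨⟨_, h5⟩, h2⟩
      exact ⟨h2, h5⟩
  rw [← h1]
  apply le_mul_of_one_le_right
  · exact GG_nonneg z Δ
  · calc (1 : ℝ) = ∏ P ∈ ((PU K y).filter (fun P => P ∣ Δ)).filter (fun P => ¬ P ∈ PU K z),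
          (1 : ℝ) := by rw [prod_const_one]
      _ ≤ _ := prod_le_prod (fun _ _ => zero_le_one) fun P hP => hF1 P (mem_filter.1 hP).1

theorem avg (z H : ℕ) : ∑ Δ ∈ (Bx K H).filter (fun Δ => Δ ≠ 0), GG z Δ ≤
    Real.exp 2 * (Fintype.card K : ℝ) ^ H := by
  have hq := q_ge (k := K)
  obtain ⟨x, hxd⟩ : ∃ x : K[X] → ℝ, x = fun P => 1 / (Fintype.card K : ℝ) ^ P.natDegree := ⟨_, rfl⟩
  have hx : ∀ P ∈ PU K z, 0 < x P ∧ x P ≤ 1 / 2 := fun P hP => by
    rw [hxd]
    exact x_bd (mem_PU.1 hP).2.1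
  have h1 : ∀ Δ : K[X], GG z Δ ≤ ∑ T ∈ (PU K z).powerset,
      (if ∀ P ∈ T, P ∣ Δ then 1 else 0) * ∏ P ∈ T, (2 * x P) := by
    intro Δ
    have h2 : GG z Δ ≤ ∏ P ∈ (PU K z).filter (fun P => P ∣ Δ), (1 + 2 * x P) := by
      unfold GG
      apply prod_le_prod
      · intro P hP
        have := x_bd (mem_PU.1 (mem_filter.1 hP).1).2.1
        exact inv_nonneg.2 (by linarith)
      · intro P hP
        have h3 := hx P (mem_filter.1 hP).1
        have h4 : 1 / (Fintype.card K : ℝ) ^ P.natDegree = x P := by rw [hxd]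
        rw [h4, inv_le_comm₀ (by linarith) (by linarith), inv_le_iff_one_le_mul₀ (by linarith)]
        nlinarith
    refine h2.trans (le_of_eq ?_)
    rw [prod_one_add]
    have h5 : ((PU K z).filter (fun P => P ∣ Δ)).powerset =
        (PU K z).powerset.filter (fun T => ∀ P ∈ T, P ∣ Δ) := by
      ext T
      rw [mem_powerset, mem_filter, mem_powerset]
      constructor
      · intro h
        exact ⟨fun P hP => (mem_filter.1 (h hP)).1, fun P hP => (mem_filter.1 (h hP)).2⟩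
      · rintro ⟨h6, h7⟩ P hP
        exact mem_filter.2 ⟨h6 hP, h7 P hP⟩
    rw [h5, sum_filter]
    refine sum_congr rfl fun T _ => ?_
    split_ifs <;> simp
  calc ∑ Δ ∈ (Bx K H).filter (fun Δ => Δ ≠ 0), GG z Δ ≤
      ∑ Δ ∈ (Bx K H).filter (fun Δ => Δ ≠ 0), ∑ T ∈ (PU K z).powerset,
        (if ∀ P ∈ T, P ∣ Δ then 1 else 0) * ∏ P ∈ T, (2 * x P) := sum_le_sum fun Δ _ => h1 Δ
    _ = ∑ T ∈ (PU K z).powerset,
        (((Bx K H).filter (fun Δ => Δ ≠ 0 ∧ (∏ P ∈ T, P) ∣ Δ)).card : ℝ) *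
          ∏ P ∈ T, (2 * x P) := by
        rw [sum_comm]
        refine sum_congr rfl fun T hT => ?_
        rw [← sum_mul]
        congr 1
        rw [← sum_filter, sum_const, nsmul_eq_mul, mul_one, filter_filter]
        congr 2
        apply filter_congr
        intro Δ _
        rw [prod_dvd_iff (mem_powerset.1 hT)]
    _ ≤ ∑ T ∈ (PU K z).powerset, (Fintype.card K : ℝ) ^ H * ∏ P ∈ T, (2 * x P ^ 2) := by
        apply sum_le_sum
        intro T hT
        rw [mem_powerset] at hT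
        have h2 : (∏ P ∈ T, P).Monic := monic_prod_of_monic _ _ fun P hP => (mem_PU.1 (hT hP)).1
        have h3 := card_mult h2 H
        have h4 : 0 ≤ ∏ P ∈ T, (2 * x P) := prod_nonneg fun P hP => by linarith [hx P (hT hP)]
        refine (mul_le_mul_of_nonneg_right h3 h4).trans (le_of_eq ?_)
        have h5 : 1 / (Fintype.card K : ℝ) ^ (∏ P ∈ T, P).natDegree = ∏ P ∈ T, x P := by
          rw [natDegree_prod_of_monic _ _ fun P hP => (mem_PU.1 (hT hP)).1, ← prod_pow_eq_pow_sum,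
            hxd, one_div, ← prod_inv_distrib]
          exact prod_congr rfl fun P _ => (one_div _).symm
        rw [div_eq_mul_one_div, h5, mul_assoc, ← prod_mul_distrib]
        congr 1
        exact prod_congr rfl fun P _ => by ring
    _ = (Fintype.card K : ℝ) ^ H * ∏ P ∈ PU K z, (1 + 2 * x P ^ 2) := by
        rw [← mul_sum, prod_one_add]
    _ ≤ (Fintype.card K : ℝ) ^ H * Real.exp 2 := by
        apply mul_le_mul_of_nonneg_left _ (by positivity)
        calc ∏ P ∈ PU K z, (1 + 2 * x P ^ 2) ≤ ∏ P ∈ PU K z, Real.exp (2 * x P ^ 2) := by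
              apply prod_le_prod
              · intro P _
                positivity
              · intro P _
                linarith [Real.add_one_le_exp (2 * x P ^ 2)]
          _ = Real.exp (∑ P ∈ PU K z, 2 * x P ^ 2) := (Real.exp_sum _ _).symm
          _ ≤ Real.exp 2 := by
            apply Real.exp_le_exp.2
            rw [← mul_sum]
            have := sum_sq (K := K) z
            rw [hxd]
            linarith
    _ = _ := mul_comm _ _

end small

section pairs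
variable {K : Type} [Field K] [Fintype K] [CharP K 2]

theorem deg_sq {a r : K[X]} {d : ℕ} (ha : a ∈ Mn K d) (hr : r.degree < (d : WithBot ℕ))
    (hd : 1 ≤ d) : (a ^ 2 + r).Monic ∧ (a ^ 2 + r).natDegree = 2 * d := by
  rw [mem_Mn] at ha
  have h1 : (a ^ 2).degree = ((2 * d : ℕ) : WithBot ℕ) := by
    rw [degree_eq_natDegree (ha.1.pow 2).ne_zero, ha.1.natDegree_pow, ha.2]
  have h2 : r.degree < (a ^ 2).degree := by
    rw [h1]
    refine hr.trans ?_
    exact_mod_cast (by omega : d < 2 * d)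
  refine ⟨(ha.1.pow 2).add_of_left h2, ?_⟩
  rw [natDegree_add_eq_left_of_degree_lt h2, ha.1.natDegree_pow, ha.2]

theorem loc (r r' : K[X]) :
    Loc (M0 K) (fun P a => P ∣ (a ^ 2 + r) * (a ^ 2 + r')) (om (r - r')) 2 where
  per := fun P a u => per r r' P a u
  num := fun P hP hPi _ => num hP hPi r r'
  bd := fun P => by
    unfold om
    split_ifs <;> norm_num
  big := fun P hP hPi h => by
    have := big hP hPi h
    omega

/-- The trivial rough weights. -/
theorem rw1 (z : ℕ) : RW (K := K) (ι := Unit) z 0 1 univ (fun _ => 1) (fun _ => 0) (fun _ => 1) where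
  mon := fun _ _ => monic_one
  sq := fun _ _ => squarefree_one
  rough := fun _ _ P hP => by
    exact absurd (isUnit_of_dvd_one hP.2.2) hP.2.1.not_isUnit
  deg := fun _ _ => by rw [natDegree_one]
  bd1 := by simp
  bd2 := by simp
  nn := fun a => by
    unfold Pool.Agent.H524.MT.rwt
    exact sum_nonneg fun _ _ => zero_le_one

theorem rwt1 (a : K[X]) :
    rwt (ι := Unit) univ (fun _ => (1 : K[X])) (fun _ => 0) (fun _ => 1) a = 1 := by
  unfold Pool.Agent.H524.MT.rwt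
  rw [filter_true_of_mem fun _ _ => one_dvd _]
  simp

theorem pair_bound (ho : S_one) (hb : S_bhk) (hm : S_mert) :
    ∃ C : ℝ, 0 < C ∧ ∃ d₀ : ℕ, ∀ (d : ℕ) (r r' : K[X]), d₀ ≤ d → r.degree < (d : WithBot ℕ) →
      r'.degree < (d : WithBot ℕ) →
      (((Mn K d).filter (fun a => Irreducible (a ^ 2 + r) ∧ Irreducible (a ^ 2 + r'))).card : ℝ) ≤
        C * (Fintype.card K : ℝ) ^ d / (d : ℝ) ^ 2 * GG d (r - r') := by
  have hq := q_ge (k := K)
  obtain ⟨A, hA, hA1⟩ := hb K 4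
  refine ⟨2 * 4 ^ (PU K 5).card * (4 * A) ^ 2, by positivity,
    2 * A * ((M0 K).natDegree + 1), ?_⟩
  intro d r r' hd hr hr'
  obtain ⟨z, hz⟩ : ∃ z : ℕ, z = d / (2 * A) := ⟨_, rfl⟩
  have hA0 : 0 < 2 * A := by omega
  have hz1 : (M0 K).natDegree + 1 ≤ z := by
    rw [hz, Nat.le_div_iff_mul_le hA0]
    calc ((M0 K).natDegree + 1) * (2 * A) = 2 * A * ((M0 K).natDegree + 1) := by ring
      _ ≤ d := hd
  have hz2 : 2 * (A * z) ≤ d := by
    have := Nat.div_mul_le_self d (2 * A)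
    rw [← hz] at this
    calc 2 * (A * z) = z * (2 * A) := by ring
      _ ≤ d := this
  have hz3 : d < 4 * A * z := by
    have h1 := Nat.lt_div_mul_add (a := d) hA0
    rw [← hz] at h1
    nlinarith
  have hAz : z ≤ A * z := Nat.le_mul_of_pos_left z (by omega)
  obtain ⟨Vm, Vp, hBH⟩ := hA1 z (by omega)
  have hd1 : 1 ≤ d := by omega
  -- the bound in a class modulo `M0`
  have h1 : ∀ a₀ : K[X], (((Ac K d (M0 K) a₀).filter (fun a => ∀ P ∈ PS K (M0 K) z,
      ¬ P ∣ (a ^ 2 + r) * (a ^ 2 + r'))).card : ℝ) ≤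
      (Fintype.card K : ℝ) ^ d / (Fintype.card K : ℝ) ^ (M0 K).natDegree *
        (2 * VR (M0 K) z (om (r - r'))) := by
    intro a₀
    have h2 := (ho K 2 (M0 K) (fun P a => P ∣ (a ^ 2 + r) * (a ^ 2 + r')) (om (r - r')) a₀ d z A 0 1
      Vm Vp Unit univ (fun _ => 1) (fun _ => 0) (fun _ => 1) M0_monic (loc r r') (by omega) hBH
      (by omega) (rw1 z)).2
    rw [sum_congr rfl fun a _ => rwt1 a, sum_const, nsmul_eq_mul, mul_one] at h2
    refine h2.trans (le_of_eq ?_)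
    unfold Pool.Agent.H524.MT.QQ
    simp
  obtain ⟨S, hS⟩ : ∃ S : Finset K[X],
    S = (Mn K d).filter (fun a => Irreducible (a ^ 2 + r) ∧ Irreducible (a ^ 2 + r')) := ⟨_, rfl⟩
  have h2 : ∀ t ∈ S.image (fun a => a %ₘ M0 K),
      ((((S.filter (fun a => a %ₘ M0 K = t)).card : ℕ)) : ℝ) ≤
      (Fintype.card K : ℝ) ^ d / (Fintype.card K : ℝ) ^ (M0 K).natDegree *
        (2 * VR (M0 K) z (om (r - r'))) := by
    intro t _
    refine le_trans ?_ (h1 t)
    apply Nat.cast_le.2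
    apply card_le_card
    intro a ha
    rw [mem_filter, hS, mem_filter] at ha
    obtain ⟨⟨ha1, ha2, ha3⟩, ha4⟩ := ha
    rw [mem_filter]
    refine ⟨?_, ?_⟩
    · unfold Pool.Agent.H524.MT.Ac
      rw [mem_filter]
      refine ⟨ha1, a /ₘ M0 K, ?_⟩
      rw [← ha4]
      linear_combination - modByMonic_add_div a (M0 K)
    · intro P hP hdvd
      unfold Pool.Agent.H524.MT.PS at hP
      rw [mem_filter, mem_PU] at hP
      obtain ⟨⟨hPm, hPi, hPz⟩, _⟩ := hP
      have key : ∀ s : K[X], s.degree < (d : WithBot ℕ) → Irreducible (a ^ 2 + s) →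
          ¬ P ∣ a ^ 2 + s := by
        intro s hs hsi hPs
        obtain ⟨hm1, hm2⟩ := deg_sq ha1 hs hd1
        have h5 : P = a ^ 2 + s :=
          eq_of_monic_of_associated hPm hm1 (hPi.associated_of_dvd hsi hPs)
        rw [h5, hm2] at hPz
        omega
      rcases hPi.prime.dvd_or_dvd hdvd with h5 | h5
      · exact key r hr ha2 h5
      · exact key r' hr' ha3 h5
  have h3 : (S.card : ℝ) ≤ (Fintype.card K : ℝ) ^ (M0 K).natDegree *
      ((Fintype.card K : ℝ) ^ d / (Fintype.card K : ℝ) ^ (M0 K).natDegree *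
        (2 * VR (M0 K) z (om (r - r')))) := by
    have hV : 0 ≤ (Fintype.card K : ℝ) ^ d / (Fintype.card K : ℝ) ^ (M0 K).natDegree *
        (2 * VR (M0 K) z (om (r - r'))) := le_trans (Nat.cast_nonneg _) (h1 0)
    have h4 : (S.card : ℝ) = ∑ t ∈ S.image (fun a => a %ₘ M0 K),
        (((S.filter (fun a => a %ₘ M0 K = t)).card : ℕ) : ℝ) := by
      rw [← Nat.cast_sum, ← card_eq_sum_card_image]
    rw [h4]
    refine (sum_le_sum h2).trans ?_
    rw [sum_const, nsmul_eq_mul]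
    apply mul_le_mul_of_nonneg_right _ hV
    have h5 : (S.image (fun a => a %ₘ M0 K)) ⊆ Bx K (M0 K).natDegree := by
      intro t ht
      obtain ⟨a, _, rfl⟩ := mem_image.1 ht
      rw [mem_Bx, ← degree_eq_natDegree M0_monic.ne_zero]
      exact degree_modByMonic_lt a M0_monic
    have h6 := card_le_card h5
    rw [card_Bx] at h6
    exact_mod_cast h6
  have hd0 : (0 : ℝ) < d := by exact_mod_cast hd1
  have hz0 : (0 : ℝ) < z := by
    have : 0 < z := by omega
    exact_mod_cast this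
  have h4 : (1 : ℝ) / (z : ℝ) ^ 2 ≤ (4 * A) ^ 2 / (d : ℝ) ^ 2 := by
    rw [div_le_div_iff₀ (by positivity) (by positivity), one_mul, ← mul_pow]
    apply pow_le_pow_left₀ hd0.le
    exact_mod_cast hz3.le
  have h5 := VR_le hm (z := z) (by omega) (r - r')
  have h6 := GG_mono (K := K) (z := z) (y := d) (by omega) (r - r')
  have h7 := GG_nonneg (K := K) z (r - r')
  rw [← hS]
  calc (S.card : ℝ) ≤ _ := h3
    _ = 2 * (Fintype.card K : ℝ) ^ d * VR (M0 K) z (om (r - r')) := by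
      field_simp
    _ ≤ 2 * (Fintype.card K : ℝ) ^ d * (4 ^ (PU K 5).card / (z : ℝ) ^ 2 * GG z (r - r')) :=
      mul_le_mul_of_nonneg_left h5 (by positivity)
    _ = 2 * (Fintype.card K : ℝ) ^ d * 4 ^ (PU K 5).card * GG z (r - r') * (1 / (z : ℝ) ^ 2) := by
      ring
    _ ≤ 2 * (Fintype.card K : ℝ) ^ d * 4 ^ (PU K 5).card * GG z (r - r') *
        ((4 * A) ^ 2 / (d : ℝ) ^ 2) := mul_le_mul_of_nonneg_left h4 (by positivity)
    _ = 2 * 4 ^ (PU K 5).card * (4 * A) ^ 2 * (Fintype.card K : ℝ) ^ d / (d : ℝ) ^ 2 *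
        GG z (r - r') := by ring
    _ ≤ _ := mul_le_mul_of_nonneg_left h6 (by positivity)

end pairs

end Pool.Agent.H604.LD.Sq
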