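import Mathlib
import Pool.Agent.H604.LD.App.A1
import Pool.Agent.H604.LD.App.Sq

/-!
# The distance from a square to the nearest prime (helper604)
-/

set_option autoImplicit false
set_option linter.unusedSectionVars false

namespace Pool.Agent.H604.LD.Sq

open Polynomial Finset
open scoped Classical
open Pool.Agent.H694.Typ (Mn PU mem_Mn mem_PU card_Mn q_ge)
open Pool.Agent.H524.MT (S_one S_bhk S_mert)

variable {K : Type} [Field K] [Fintype K]

/-- The number of the primes `a² + r`, `a` monic of degree `d`. -/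
noncomputable def F (d : ℕ) (r : K[X]) : ℕ := ((Mn K d).filter (fun a => Irreducible (a ^ 2 + r))).card

/-- The number of the primes `a² + r`, `deg r < H`. -/
noncomputable def N (H : ℕ) (a : K[X]) : ℕ := ((Bx K H).filter (fun r => Irreducible (a ^ 2 + r))).card

theorem sum_N (d H : ℕ) : ∑ a ∈ Mn K d, (N H a : ℝ) = ∑ r ∈ Bx K H, (F d r : ℝ) := by
  unfold N F
  simp only [card_filter, Nat.cast_sum]
  rw [sum_comm]

theorem sum_N_sq (d H : ℕ) : ∑ a ∈ Mn K d, (N H a : ℝ) ^ 2 = ∑ r ∈ Bx K H, ∑ r' ∈ Bx K H,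
    (((Mn K d).filter (fun a => Irreducible (a ^ 2 + r) ∧ Irreducible (a ^ 2 + r'))).card : ℝ) := by
  have h1 : ∀ a ∈ Mn K d, (N H a : ℝ) ^ 2 = ∑ r ∈ Bx K H, ∑ r' ∈ Bx K H,
      (if Irreducible (a ^ 2 + r) ∧ Irreducible (a ^ 2 + r') then (1 : ℝ) else 0) := by
    intro a _
    have h2 : (N H a : ℝ) = ∑ r ∈ Bx K H, (if Irreducible (a ^ 2 + r) then (1 : ℝ) else 0) := by
      unfold N
      rw [card_filter, Nat.cast_sum]
      refine sum_congr rfl fun r _ => ?_
      split_ifs <;> simp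
    rw [h2, sq, sum_mul_sum]
    refine sum_congr rfl fun r _ => sum_congr rfl fun r' _ => ?_
    by_cases h3 : Irreducible (a ^ 2 + r)
    · by_cases h4 : Irreducible (a ^ 2 + r')
      · simp only [h3, h4, and_self, if_true, one_mul]
      · simp only [h3, h4, and_false, if_true, if_false, mul_zero]
    · simp only [h3, false_and, if_false, zero_mul]
  rw [sum_congr rfl h1, sum_comm]
  refine sum_congr rfl fun r _ => ?_
  rw [sum_comm]
  refine sum_congr rfl fun r' _ => ?_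
  rw [card_filter, Nat.cast_sum]
  refine sum_congr rfl fun a _ => ?_
  split_ifs <;> simp

theorem card_sq (H : ℕ) (hH : 2 ≤ H) :
    (Fintype.card K : ℝ) ^ H / 2 ≤ (((Bx K H).filter (fun r => ¬ IsSquare r)).card : ℝ) := by
  have hq := q_ge (k := K)
  have h1 : (Bx K H).filter (fun r => IsSquare r) ⊆ (Bx K (H - 1)).image (fun s => s * s) := by
    intro r hr
    rw [mem_filter, mem_Bx] at hr
    obtain ⟨h2, s, hs⟩ := hr
    rw [mem_image]
    refine ⟨s, ?_, hs.symm⟩
    rw [mem_Bx]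
    rcases eq_or_ne s 0 with h0 | h0
    · rw [h0, degree_zero]
      exact WithBot.bot_lt_coe _
    · have h3 : r ≠ 0 := by
        rw [hs]
        exact mul_ne_zero h0 h0
      have h4 := (natDegree_lt_iff_degree_lt h3).2 h2
      rw [hs, natDegree_mul h0 h0] at h4
      exact (natDegree_lt_iff_degree_lt h0).1 (by omega)
  have h2 : (((Bx K H).filter (fun r => IsSquare r)).card : ℝ) ≤ (Fintype.card K : ℝ) ^ H / 2 := by
    have h3 := (card_le_card h1).trans card_image_le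
    rw [card_Bx] at h3
    calc (((Bx K H).filter (fun r => IsSquare r)).card : ℝ) ≤ (Fintype.card K : ℝ) ^ (H - 1) := by
          exact_mod_cast h3
      _ ≤ (Fintype.card K : ℝ) ^ H / 2 := by
        rw [le_div_iff₀ (by norm_num)]
        calc (Fintype.card K : ℝ) ^ (H - 1) * 2 ≤ (Fintype.card K : ℝ) ^ (H - 1) * Fintype.card K :=
              mul_le_mul_of_nonneg_left hq (by positivity)
          _ = (Fintype.card K : ℝ) ^ H := by
            rw [← pow_succ]
            congr 1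
            omega
  have h3 := card_filter_add_card_filter_not (s := Bx K H) (fun r : K[X] => IsSquare r)
  rw [card_Bx] at h3
  have h4 : (((Bx K H).filter (fun r => IsSquare r)).card : ℝ) +
      (((Bx K H).filter (fun r => ¬ IsSquare r)).card : ℝ) = (Fintype.card K : ℝ) ^ H := by
    exact_mod_cast h3
  linarith

variable [CharP K 2]

theorem F_sq {d : ℕ} {r : K[X]} (hr : IsSquare r) : F d r = 0 := by
  obtain ⟨s, hs⟩ := hr
  have h2 : (2 : K[X]) = 0 := CharTwo.two_eq_zero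
  unfold F
  rw [card_eq_zero, filter_eq_empty_iff]
  intro a _ h
  have h3 : a ^ 2 + r = (a + s) * (a + s) := by
    rw [hs]
    linear_combination (- (a * s)) * h2
  rw [h3] at h
  rcases of_irreducible_mul h with h4 | h4
  · exact h.not_isUnit (h4.mul h4)
  · exact h.not_isUnit (h4.mul h4)

theorem sum_shift (z H : ℕ) {r : K[X]} (hr : r ∈ Bx K H) :
    ∑ r' ∈ (Bx K H).filter (fun r' => r' ≠ r), GG z (r - r') =
      ∑ Δ ∈ (Bx K H).filter (fun Δ => Δ ≠ 0), GG z Δ := by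
  rw [mem_Bx] at hr
  refine sum_bij (fun r' _ => r - r') ?_ ?_ ?_ ?_
  · intro r' hr'
    rw [mem_filter, mem_Bx] at hr' ⊢
    exact ⟨lt_of_le_of_lt (degree_sub_le _ _) (max_lt hr hr'.1),
      fun h => hr'.2 (sub_eq_zero.1 h).symm⟩
  · intro r₁ _ r₂ _ h
    exact sub_right_injective h
  · intro Δ hΔ
    rw [mem_filter, mem_Bx] at hΔ
    refine ⟨r - Δ, ?_, by ring⟩
    rw [mem_filter, mem_Bx]
    exact ⟨lt_of_le_of_lt (degree_sub_le _ _) (max_lt hr hΔ.1), fun h => hΔ.2 (by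
      have := sub_eq_self.1 h
      exact this)⟩
  · intro r' _
    rfl

/-- The main estimate, `H` small. -/
theorem main (hb : S_bhqp) (ho : S_one) (hbk : S_bhk) (hm : S_mert) (K : Type) [Field K] [Fintype K]
    [CharP K 2] : ∃ c θ : ℝ, 0 < c ∧ 0 < θ ∧ ∃ d₀ : ℕ, ∀ d H : ℕ, d₀ ≤ d → 2 ≤ H → (H : ℝ) ≤ θ * d →
      c * min 1 ((Fintype.card K : ℝ) ^ H / d) * (Fintype.card K : ℝ) ^ d ≤
        (((Mn K d).filter (fun a => 1 ≤ N H a ∧
          c * ((Fintype.card K : ℝ) ^ H / d) ≤ N H a)).card : ℝ) ∧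
      (((Mn K d).filter (fun a => 1 ≤ N H a)).card : ℝ) ≤
        (Fintype.card K : ℝ) ^ H / d * (Fintype.card K : ℝ) ^ d := by
  have hq := q_ge (k := K)
  obtain ⟨δ, θ, hδ, hθ, d₁, h1⟩ := sq_add hb K
  obtain ⟨C, hC, d₂, h2⟩ := pair_bound (K := K) ho hbk hm
  obtain ⟨d₃, hd₃⟩ := exists_nat_gt (1 / δ)
  refine ⟨1 / (256 * (1 + C * Real.exp 2)), min θ 1, by positivity, by positivity,
    max (max d₁ d₂) (max d₃ 1), ?_⟩
  intro d H hd hH hHd
  have hd1 : d₁ ≤ d := (le_max_left _ _).trans ((le_max_left _ _).trans hd)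
  have hd2 : d₂ ≤ d := (le_max_right _ _).trans ((le_max_left _ _).trans hd)
  have hd3 : d₃ ≤ d := (le_max_left _ _).trans ((le_max_right _ _).trans hd)
  have hd4 : 1 ≤ d := (le_max_right _ _).trans ((le_max_right _ _).trans hd)
  have hd0 : (0 : ℝ) < d := by exact_mod_cast hd4
  have hHθ : (H : ℝ) ≤ θ * d := hHd.trans (mul_le_mul_of_nonneg_right (min_le_left _ _) hd0.le)
  have hHd1 : H ≤ d := by
    have : (H : ℝ) ≤ d := by
      calc (H : ℝ) ≤ min θ 1 * d := hHd
        _ ≤ 1 * d := mul_le_mul_of_nonneg_right (min_le_right _ _) hd0.le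
        _ = d := one_mul _
    exact_mod_cast this
  obtain ⟨Q, hQ⟩ : ∃ Q : ℝ, Q = (Fintype.card K : ℝ) ^ d := ⟨_, rfl⟩
  have hQ0 : 0 < Q := by
    rw [hQ]
    positivity
  obtain ⟨lam, hlam⟩ : ∃ lam : ℝ, lam = (Fintype.card K : ℝ) ^ H / d := ⟨_, rfl⟩
  have hlam0 : 0 < lam := by
    rw [hlam]
    positivity
  -- the first moment
  have herr : (Fintype.card K : ℝ) ^ ((1 - δ) * d) ≤ Q / 2 := by
    have h3 : (2 : ℝ) ≤ (Fintype.card K : ℝ) ^ (δ * d) := by
      have h4 : 1 ≤ δ * d := by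
        have h5 : 1 / δ < d := hd₃.trans_le (by exact_mod_cast hd3)
        rw [div_lt_iff₀ hδ] at h5
        linarith
      calc (2 : ℝ) ≤ (Fintype.card K : ℝ) ^ (1 : ℝ) := by
            rw [Real.rpow_one]
            exact hq
        _ ≤ _ := Real.rpow_le_rpow_of_exponent_le (by linarith) h4
    rw [le_div_iff₀ (by norm_num)]
    calc (Fintype.card K : ℝ) ^ ((1 - δ) * d) * 2 ≤
        (Fintype.card K : ℝ) ^ ((1 - δ) * d) * (Fintype.card K : ℝ) ^ (δ * d) :=
          mul_le_mul_of_nonneg_left h3 (by positivity)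
      _ = Q := by
        rw [← Real.rpow_add (by linarith), hQ, ← Real.rpow_natCast]
        congr 1
        ring
  have hF : ∀ r ∈ (Bx K H).filter (fun r => ¬ IsSquare r),
      Q / (4 * d) ≤ (F d r : ℝ) ∧ (F d r : ℝ) ≤ Q / d := by
    intro r hr
    rw [mem_filter, mem_Bx] at hr
    have h3 : (r.natDegree : ℝ) ≤ θ * d := by
      refine le_trans ?_ hHθ
      have h4 : r ≠ 0 := by
        rintro rfl
        exact hr.2 ⟨0, by ring⟩
      have := (natDegree_lt_iff_degree_lt h4).2 hr.1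
      exact_mod_cast this.le
    have h4 := h1 r d hr.2 hd1 h3
    rw [ncard_eq] at h4
    have h5 := (abs_le.1 (h4.trans herr))
    rw [← hQ] at h5
    change -(Q / 2) ≤ 2 * (d : ℝ) * (F d r : ℝ) - Q ∧ 2 * (d : ℝ) * (F d r : ℝ) - Q ≤ Q / 2 at h5
    constructor
    · rw [div_le_iff₀ (by positivity)]
      linarith [h5.1]
    · rw [le_div_iff₀ hd0]
      linarith [h5.2]
  have hM1 : ∑ a ∈ Mn K d, (N H a : ℝ) =
      ∑ r ∈ (Bx K H).filter (fun r => ¬ IsSquare r), (F d r : ℝ) := by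
    rw [sum_N, sum_filter]
    refine sum_congr rfl fun r _ => ?_
    by_cases h3 : IsSquare r
    · rw [if_neg (not_not.2 h3), F_sq h3, Nat.cast_zero]
    · rw [if_pos h3]
  have hL : lam / 8 * Q ≤ ∑ a ∈ Mn K d, (N H a : ℝ) := by
    rw [hM1]
    have h3 := card_nsmul_le_sum _ _ _ fun r hr => (hF r hr).1
    rw [nsmul_eq_mul] at h3
    refine le_trans ?_ h3
    have h4 := card_sq (K := K) H hH
    calc lam / 8 * Q = (Fintype.card K : ℝ) ^ H / 2 * (Q / (4 * d)) := by
          rw [hlam]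
          field_simp
          ring
      _ ≤ _ := mul_le_mul_of_nonneg_right h4 (by positivity)
  have hU : ∑ a ∈ Mn K d, (N H a : ℝ) ≤ lam * Q := by
    rw [hM1]
    have h3 := sum_le_card_nsmul _ _ _ fun r hr => (hF r hr).2
    rw [nsmul_eq_mul] at h3
    refine h3.trans ?_
    have h4 : (((Bx K H).filter (fun r => ¬ IsSquare r)).card : ℝ) ≤ (Fintype.card K : ℝ) ^ H := by
      have := card_filter_le (Bx K H) (fun r => ¬ IsSquare r)
      rw [card_Bx] at this
      exact_mod_cast this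
    calc _ ≤ (Fintype.card K : ℝ) ^ H * (Q / d) := mul_le_mul_of_nonneg_right h4 (by positivity)
      _ = lam * Q := by
        rw [hlam]
        ring
  -- the second moment
  have hM2 : ∑ a ∈ Mn K d, (N H a : ℝ) ^ 2 ≤ (lam + C * Real.exp 2 * lam ^ 2) * Q := by
    rw [sum_N_sq]
    have h3 : ∀ r ∈ Bx K H, ∑ r' ∈ Bx K H,
        (((Mn K d).filter (fun a => Irreducible (a ^ 2 + r) ∧
          Irreducible (a ^ 2 + r'))).card : ℝ) ≤
        (F d r : ℝ) + C * Q / (d : ℝ) ^ 2 * (Real.exp 2 * (Fintype.card K : ℝ) ^ H) := by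
      intro r hr
      rw [← add_sum_erase _ _ hr]
      apply add_le_add
      · unfold F
        simp only [and_self]
        exact le_rfl
      · have h4 : (Bx K H).erase r = (Bx K H).filter (fun r' => r' ≠ r) := by
          ext r'
          simp only [mem_erase, mem_filter, and_comm]
        have h5 := avg (K := K) d H
        rw [← sum_shift d H hr] at h5
        rw [h4]
        calc _ ≤ ∑ r' ∈ (Bx K H).filter (fun r' => r' ≠ r), C * Q / (d : ℝ) ^ 2 * GG d (r - r') := by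
              apply sum_le_sum
              intro r' hr'
              rw [mem_filter, mem_Bx] at hr'
              rw [mem_Bx] at hr
              have hHd' : (H : WithBot ℕ) ≤ (d : WithBot ℕ) := by exact_mod_cast hHd1
              have := h2 d r r' hd2 (hr.trans_le hHd') (hr'.1.trans_le hHd')
              rw [hQ]
              exact this
          _ = C * Q / (d : ℝ) ^ 2 * ∑ r' ∈ (Bx K H).filter (fun r' => r' ≠ r), GG d (r - r') := by
              rw [mul_sum]
          _ ≤ _ := mul_le_mul_of_nonneg_left h5 (by positivity)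
    refine (sum_le_sum h3).trans ?_
    rw [sum_add_distrib, ← sum_N, sum_const, nsmul_eq_mul, card_Bx, Nat.cast_pow]
    refine (add_le_add_left hU _).trans (le_of_eq ?_)
    rw [hlam]
    field_simp
  -- Paley-Zygmund
  rw [← hQ, ← hlam]
  have hE : 0 < C * Real.exp 2 := by positivity
  constructor
  · obtain ⟨S, hS⟩ : ∃ S : Finset K[X],
      S = (Mn K d).filter (fun a => 1 ≤ N H a ∧ lam / 16 ≤ N H a) := ⟨_, rfl⟩
    have hSsub : S ⊆ (Mn K d).filter (fun a => 1 ≤ N H a ∧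
        1 / (256 * (1 + C * Real.exp 2)) * lam ≤ N H a) := by
      intro a ha
      rw [hS, mem_filter] at ha
      rw [mem_filter]
      refine ⟨ha.1, ha.2.1, le_trans ?_ ha.2.2⟩
      rw [one_div_mul_eq_div]
      apply div_le_div_of_nonneg_left hlam0.le (by norm_num)
      linarith
    have hsub : S ⊆ Mn K d := by
      rw [hS]
      exact filter_subset _ _
    have hS1 : lam / 16 * Q ≤ ∑ a ∈ S, (N H a : ℝ) := by
      have h3 : ∑ a ∈ Mn K d, (N H a : ℝ) ≤ ∑ a ∈ S, (N H a : ℝ) + ∑ a ∈ Mn K d, lam / 16 := by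
        rw [← sum_sdiff hsub, add_comm]
        apply add_le_add le_rfl
        calc ∑ a ∈ Mn K d \ S, (N H a : ℝ) ≤ ∑ a ∈ Mn K d \ S, lam / 16 := by
              apply sum_le_sum
              intro a ha
              rw [mem_sdiff, hS, mem_filter, not_and, not_and] at ha
              rcases Nat.eq_zero_or_pos (N H a) with h4 | h4
              · rw [h4, Nat.cast_zero]
                positivity
              · exact (not_le.1 (ha.2 ha.1 h4)).le
          _ ≤ ∑ a ∈ Mn K d, lam / 16 :=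
            sum_le_sum_of_subset_of_nonneg sdiff_subset fun _ _ _ => by positivity
      have h4 : ∑ a ∈ Mn K d, lam / 16 = lam / 16 * Q := by
        rw [sum_const, nsmul_eq_mul, card_Mn, Nat.cast_pow, hQ, mul_comm]
      rw [h4] at h3
      linarith
    have hS2 : ∑ a ∈ S, (N H a : ℝ) ^ 2 ≤ ∑ a ∈ Mn K d, (N H a : ℝ) ^ 2 :=
      sum_le_sum_of_subset_of_nonneg hsub fun _ _ _ => sq_nonneg _
    have hCS : (∑ a ∈ S, (N H a : ℝ)) ^ 2 ≤ (S.card : ℝ) * ∑ a ∈ S, (N H a : ℝ) ^ 2 :=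
      sq_sum_le_card_mul_sum_sq
    have h3 : (lam / 16 * Q) ^ 2 ≤ (S.card : ℝ) * ((lam + C * Real.exp 2 * lam ^ 2) * Q) := by
      calc (lam / 16 * Q) ^ 2 ≤ (∑ a ∈ S, (N H a : ℝ)) ^ 2 :=
            pow_le_pow_left₀ (by positivity) hS1 2
        _ ≤ _ := hCS
        _ ≤ (S.card : ℝ) * ((lam + C * Real.exp 2 * lam ^ 2) * Q) :=
          mul_le_mul_of_nonneg_left (hS2.trans hM2) (Nat.cast_nonneg _)
    have h4 : lam / 256 * Q ≤ (S.card : ℝ) * (1 + C * Real.exp 2 * lam) := by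
      have h5 : 0 < lam * Q := by positivity
      nlinarith
    have hSn : (0 : ℝ) ≤ S.card := Nat.cast_nonneg _
    refine le_trans ?_ (Nat.cast_le.2 (card_le_card hSsub))
    rw [one_div_mul_eq_div, div_mul_eq_mul_div, div_le_iff₀ (by positivity)]
    rcases le_total lam 1 with h5 | h5
    · rw [min_eq_right h5]
      nlinarith [mul_nonneg hSn (mul_nonneg hE.le (sub_nonneg.2 h5))]
    · rw [min_eq_left h5, one_mul]
      have h6 : lam * Q ≤ (S.card : ℝ) * (256 * (1 + C * Real.exp 2)) * lam := by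
        nlinarith [mul_nonneg hSn (sub_nonneg.2 h5)]
      exact le_of_mul_le_mul_right (by linarith) hlam0
  · obtain ⟨S, hS⟩ : ∃ S : Finset K[X], S = (Mn K d).filter (fun a => 1 ≤ N H a) := ⟨_, rfl⟩
    rw [← hS]
    have h3 : (S.card : ℝ) ≤ ∑ a ∈ S, (N H a : ℝ) := by
      have h4 : (S.card : ℝ) = ∑ a ∈ S, (1 : ℝ) := by simp
      rw [h4]
      apply sum_le_sum
      intro a ha
      rw [hS, mem_filter] at ha
      exact_mod_cast ha.2
    have h5 : ∑ a ∈ S, (N H a : ℝ) ≤ ∑ a ∈ Mn K d, (N H a : ℝ) := by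
      apply sum_le_sum_of_subset_of_nonneg
      · rw [hS]
        exact filter_subset _ _
      · intro _ _ _
        exact Nat.cast_nonneg _
    exact h3.trans (h5.trans hU)

/-- The number of the irreducible `a² + r`, `deg r < H`. -/
theorem near_eq (H : ℕ) (a : K[X]) :
    {r : K[X] | r.degree < (H : WithBot ℕ) ∧ Irreducible (a ^ 2 + r)}.ncard = N H a := by
  unfold N
  rw [← Set.ncard_coe_finset]
  congr 1
  ext r
  simp only [Set.mem_ofPred_eq, coe_filter, mem_Bx]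

theorem set_eq (d : ℕ) (p : K[X] → Prop) [i : DecidablePred p] :
    (({a : K[X] | a.Monic ∧ a.natDegree = d ∧ p a}.ncard : ℕ) : ℝ) =
      (((Mn K d).filter p).card : ℝ) := by
  rw [ncard_eq, Subsingleton.elim (fun a => Classical.propDecidable (p a)) i]

theorem N_mono {H H' : ℕ} (h : H ≤ H') (a : K[X]) : N H a ≤ N H' a := by
  unfold N
  apply card_le_card
  apply filter_subset_filter
  intro r hr
  rw [mem_Bx] at hr ⊢
  exact hr.trans_le (by exact_mod_cast h)

/-- **The distance from a square to the nearest prime.** -/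
theorem dist (hb : S_bhqp) (ho : S_one) (hbk : S_bhk) (hm : S_mert) (K : Type) [Field K] [Fintype K]
    [CharP K 2] : ∃ c θ : ℝ, 0 < c ∧ 0 < θ ∧ ∃ d₀ : ℕ, ∀ d H : ℕ, d₀ ≤ d → 2 ≤ H →
      ((H : ℝ) ≤ θ * d → c * min 1 ((Fintype.card K : ℝ) ^ H / d) * (Fintype.card K : ℝ) ^ d ≤
        (((Mn K d).filter (fun a => 1 ≤ N H a ∧
          c * ((Fintype.card K : ℝ) ^ H / d) ≤ N H a)).card : ℝ)) ∧
      c * min 1 ((Fintype.card K : ℝ) ^ H / d) * (Fintype.card K : ℝ) ^ d ≤
        (((Mn K d).filter (fun a => 1 ≤ N H a)).card : ℝ) ∧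
      (((Mn K d).filter (fun a => 1 ≤ N H a)).card : ℝ) ≤
        min 1 ((Fintype.card K : ℝ) ^ H / d) * (Fintype.card K : ℝ) ^ d := by
  have hq := q_ge (k := K)
  obtain ⟨c, θ, hc, hθ, d₁, h1⟩ := main hb ho hbk hm K
  obtain ⟨d₂, hd₂⟩ : ∃ d₂ : ℕ, ∀ d : ℕ, d₂ ≤ d → ((Nat.log 2 d + 2 : ℕ) : ℝ) ≤ θ * d := by
    have h2 : Filter.Tendsto (fun d : ℕ => (Real.log d / Real.log 2 + 2) / (d : ℝ)) Filter.atTop
        (nhds 0) := by
      have h3 : Filter.Tendsto (fun x : ℝ => Real.log x / x) Filter.atTop (nhds 0) := by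
        have := Real.isLittleO_log_id_atTop.tendsto_div_nhds_zero
        exact this
      have h4 : Filter.Tendsto (fun d : ℕ => Real.log (d : ℝ) / (d : ℝ)) Filter.atTop (nhds 0) :=
        h3.comp tendsto_natCast_atTop_atTop
      have h5 : Filter.Tendsto (fun d : ℕ => (2 : ℝ) / (d : ℝ)) Filter.atTop (nhds 0) :=
        tendsto_const_div_atTop_nhds_zero_nat 2
      have h6 := (h4.div_const (Real.log 2)).add h5
      rw [zero_div, zero_add] at h6
      refine h6.congr fun d => ?_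
      ring
    obtain ⟨d₂, h3⟩ := Filter.eventually_atTop.1 (h2.eventually_lt_const hθ)
    refine ⟨max d₂ 1, fun d hd => ?_⟩
    have hd0 : (0 : ℝ) < d := by
      have : 1 ≤ d := (le_max_right _ _).trans hd
      exact_mod_cast this
    have h4 := h3 d ((le_max_left _ _).trans hd)
    rw [div_lt_iff₀ hd0] at h4
    have h5 : ((Nat.log 2 d : ℕ) : ℝ) ≤ Real.log d / Real.log 2 := by
      rw [← Real.logb]
      exact Real.natLog_le_logb d 2
    push_cast
    linarith
  refine ⟨c, θ, hc, hθ, max (max d₁ d₂) 1, fun d H hd hH => ?_⟩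
  have hd1 : d₁ ≤ d := (le_max_left _ _).trans ((le_max_left _ _).trans hd)
  have hd2 : d₂ ≤ d := (le_max_right _ _).trans ((le_max_left _ _).trans hd)
  have hd3 : 1 ≤ d := (le_max_right _ _).trans hd
  have hd0 : (0 : ℝ) < d := by exact_mod_cast hd3
  obtain ⟨H', hH'⟩ : ∃ H' : ℕ, H' = Nat.log 2 d + 2 := ⟨_, rfl⟩
  have hH'1 : (H' : ℝ) ≤ θ * d := by
    rw [hH']
    exact hd₂ d hd2
  have hH'2 : (d : ℝ) ≤ (Fintype.card K : ℝ) ^ H' := by
    have h2 : d < 2 ^ (Nat.log 2 d + 1) := Nat.lt_pow_succ_log_self (by norm_num) d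
    have h3 : (d : ℝ) ≤ 2 ^ (Nat.log 2 d + 1) := by exact_mod_cast h2.le
    calc (d : ℝ) ≤ 2 ^ (Nat.log 2 d + 1) := h3
      _ ≤ 2 ^ H' := pow_le_pow_right₀ (by norm_num) (by omega)
      _ ≤ _ := pow_le_pow_left₀ (by norm_num) hq H'
  have htriv : (((Mn K d).filter (fun a => 1 ≤ N H a)).card : ℝ) ≤ (Fintype.card K : ℝ) ^ d := by
    have := card_filter_le (Mn K d) (fun a => 1 ≤ N H a)
    rw [card_Mn] at this
    exact_mod_cast this
  have hfil : ∀ H : ℕ, (((Mn K d).filter (fun a => 1 ≤ N H a ∧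
      c * ((Fintype.card K : ℝ) ^ H / d) ≤ N H a)).card : ℝ) ≤
      (((Mn K d).filter (fun a => 1 ≤ N H a)).card : ℝ) := by
    intro H
    apply Nat.cast_le.2
    apply card_le_card
    intro a ha
    rw [mem_filter] at ha ⊢
    exact ⟨ha.1, ha.2.1⟩
  refine ⟨fun h => (h1 d H hd1 hH h).1, ?_⟩
  rcases le_total H H' with h | h
  · have hHθ : (H : ℝ) ≤ θ * d := le_trans (by exact_mod_cast h) hH'1
    obtain ⟨h2, h3⟩ := h1 d H hd1 hH hHθ
    refine ⟨h2.trans (hfil H), ?_⟩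
    rcases le_total 1 ((Fintype.card K : ℝ) ^ H / d) with h4 | h4
    · rw [min_eq_left h4, one_mul]
      exact htriv
    · rw [min_eq_right h4]
      exact h3
  · have h2 : (Fintype.card K : ℝ) ^ H' ≤ (Fintype.card K : ℝ) ^ H :=
      pow_le_pow_right₀ (by linarith) h
    have h3 : 1 ≤ (Fintype.card K : ℝ) ^ H / d := by
      rw [le_div_iff₀ hd0, one_mul]
      exact hH'2.trans h2
    have h3' : 1 ≤ (Fintype.card K : ℝ) ^ H' / d := by
      rw [le_div_iff₀ hd0, one_mul]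
      exact hH'2
    rw [min_eq_left h3, mul_one, one_mul]
    refine ⟨?_, htriv⟩
    have h4 := (h1 d H' hd1 (by omega) hH'1).1
    rw [min_eq_left h3', mul_one] at h4
    refine (h4.trans (hfil H')).trans ?_
    apply Nat.cast_le.2
    apply card_le_card
    intro a ha
    rw [mem_filter] at ha ⊢
    exact ⟨ha.1, ha.2.trans (N_mono h a)⟩

/-- The number of the squares. -/
theorem card_sq_eq (H : ℕ) :
    ((Bx K H).filter (fun r => IsSquare r)).card = Fintype.card K ^ ((H + 1) / 2) := by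
  have h2 : (2 : K[X]) = 0 := CharTwo.two_eq_zero
  rw [← card_Bx (K := K)]
  symm
  refine card_bij (fun s _ => s * s) ?_ ?_ ?_
  · intro s hs
    rw [mem_filter, mem_Bx]
    rw [mem_Bx] at hs
    refine ⟨?_, s, rfl⟩
    rcases eq_or_ne s 0 with h0 | h0
    · rw [h0, mul_zero, degree_zero]
      exact WithBot.bot_lt_coe _
    · have h3 := (natDegree_lt_iff_degree_lt h0).2 hs
      apply (natDegree_lt_iff_degree_lt (mul_ne_zero h0 h0)).1
      rw [natDegree_mul h0 h0]
      omega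
  · intro s _ t _ h
    have h3 : (s - t) ^ 2 = 0 := by
      have h3' : s * s = t * t := h
      linear_combination h3' + (t * t - s * t) * h2
    exact sub_eq_zero.1 (pow_eq_zero_iff (two_ne_zero) |>.1 h3)
  · intro r hr
    rw [mem_filter, mem_Bx] at hr
    obtain ⟨hr1, s, hs⟩ := hr
    refine ⟨s, ?_, hs.symm⟩
    rw [mem_Bx]
    rcases eq_or_ne s 0 with h0 | h0
    · rw [h0, degree_zero]
      exact WithBot.bot_lt_coe _
    · rw [hs] at hr1
      have h3 := (natDegree_lt_iff_degree_lt (mul_ne_zero h0 h0)).2 hr1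
      rw [natDegree_mul h0 h0] at h3
      exact (natDegree_lt_iff_degree_lt h0).1 (by omega)

/-- **The mean.** -/
theorem mean (hb : S_bhqp) (K : Type) [Field K] [Fintype K] [CharP K 2] :
    ∃ δ θ : ℝ, 0 < δ ∧ 0 < θ ∧ ∃ d₀ : ℕ, ∀ d H : ℕ, d₀ ≤ d → (H : ℝ) ≤ θ * d →
      |2 * (d : ℝ) * ∑ a ∈ Mn K d, (N H a : ℝ) -
        ((Fintype.card K : ℝ) ^ H - (Fintype.card K : ℝ) ^ ((H + 1) / 2)) *
          (Fintype.card K : ℝ) ^ d| ≤ (Fintype.card K : ℝ) ^ ((1 - δ) * d) := by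
  have hq := q_ge (k := K)
  obtain ⟨δ, θ, hδ, hθ, d₁, h1⟩ := sq_add hb K
  refine ⟨δ / 2, min θ (δ / 2), by positivity, by positivity, max d₁ 1, fun d H hd hHd => ?_⟩
  have hd1 : d₁ ≤ d := (le_max_left _ _).trans hd
  have hd3 : 1 ≤ d := (le_max_right _ _).trans hd
  have hd0 : (0 : ℝ) < d := by exact_mod_cast hd3
  have hHθ : (H : ℝ) ≤ θ * d := hHd.trans (mul_le_mul_of_nonneg_right (min_le_left _ _) hd0.le)
  have hHδ : (H : ℝ) ≤ δ / 2 * d := hHd.trans (mul_le_mul_of_nonneg_right (min_le_right _ _) hd0.le)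
  have hF : ∀ r ∈ (Bx K H).filter (fun r => ¬ IsSquare r),
      |2 * (d : ℝ) * (F d r : ℝ) - (Fintype.card K : ℝ) ^ d| ≤
        (Fintype.card K : ℝ) ^ ((1 - δ) * d) := by
    intro r hr
    rw [mem_filter, mem_Bx] at hr
    have h3 : (r.natDegree : ℝ) ≤ θ * d := by
      refine le_trans ?_ hHθ
      have h4 : r ≠ 0 := by
        rintro rfl
        exact hr.2 ⟨0, by ring⟩
      have := (natDegree_lt_iff_degree_lt h4).2 hr.1
      exact_mod_cast this.le
    have h4 := h1 r d hr.2 hd1 h3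
    rw [ncard_eq] at h4
    exact h4
  have hM1 : ∑ a ∈ Mn K d, (N H a : ℝ) =
      ∑ r ∈ (Bx K H).filter (fun r => ¬ IsSquare r), (F d r : ℝ) := by
    rw [sum_N, sum_filter]
    refine sum_congr rfl fun r _ => ?_
    by_cases h3 : IsSquare r
    · rw [if_neg (not_not.2 h3), F_sq h3, Nat.cast_zero]
    · rw [if_pos h3]
  have hcard : (((Bx K H).filter (fun r => ¬ IsSquare r)).card : ℝ) =
      (Fintype.card K : ℝ) ^ H - (Fintype.card K : ℝ) ^ ((H + 1) / 2) := by
    have h3 := card_filter_add_card_filter_not (s := Bx K H) (fun r : K[X] => IsSquare r)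
    rw [card_Bx, card_sq_eq] at h3
    have h4 : (Fintype.card K : ℝ) ^ ((H + 1) / 2) +
        (((Bx K H).filter (fun r => ¬ IsSquare r)).card : ℝ) = (Fintype.card K : ℝ) ^ H := by
      exact_mod_cast h3
    linarith
  have hcard2 : (((Bx K H).filter (fun r => ¬ IsSquare r)).card : ℝ) ≤
      (Fintype.card K : ℝ) ^ H := by
    rw [hcard]
    have : 0 ≤ (Fintype.card K : ℝ) ^ ((H + 1) / 2) := by positivity
    linarith
  have h5 : 2 * (d : ℝ) * ∑ a ∈ Mn K d, (N H a : ℝ) -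
        ((Fintype.card K : ℝ) ^ H - (Fintype.card K : ℝ) ^ ((H + 1) / 2)) *
          (Fintype.card K : ℝ) ^ d =
      ∑ r ∈ (Bx K H).filter (fun r => ¬ IsSquare r),
        (2 * (d : ℝ) * (F d r : ℝ) - (Fintype.card K : ℝ) ^ d) := by
    rw [hM1, sum_sub_distrib, ← mul_sum, sum_const, nsmul_eq_mul, hcard]
  rw [h5]
  calc _ ≤ ∑ r ∈ (Bx K H).filter (fun r => ¬ IsSquare r),
        |2 * (d : ℝ) * (F d r : ℝ) - (Fintype.card K : ℝ) ^ d| := abs_sum_le_sum_abs _ _
    _ ≤ ∑ r ∈ (Bx K H).filter (fun r => ¬ IsSquare r), (Fintype.card K : ℝ) ^ ((1 - δ) * d) :=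
      sum_le_sum hF
    _ = (((Bx K H).filter (fun r => ¬ IsSquare r)).card : ℝ) *
        (Fintype.card K : ℝ) ^ ((1 - δ) * d) := by rw [sum_const, nsmul_eq_mul]
    _ ≤ (Fintype.card K : ℝ) ^ (δ / 2 * d) * (Fintype.card K : ℝ) ^ ((1 - δ) * d) := by
      apply mul_le_mul_of_nonneg_right _ (by positivity)
      refine hcard2.trans ?_
      rw [← Real.rpow_natCast]
      exact Real.rpow_le_rpow_of_exponent_le (by linarith) hHδ
    _ = (Fintype.card K : ℝ) ^ ((1 - δ / 2) * d) := by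
      rw [← Real.rpow_add (by linarith)]
      congr 1
      ring

theorem ex_iff (H : ℕ) (a : K[X]) : (∃ r : K[X], r.degree < (H : WithBot ℕ) ∧
    Irreducible (a ^ 2 + r)) ↔ 1 ≤ N H a := by
  unfold N
  rw [Nat.one_le_iff_ne_zero, card_ne_zero]
  constructor
  · rintro ⟨r, h3, h4⟩
    exact ⟨r, mem_filter.2 ⟨mem_Bx.2 h3, h4⟩⟩
  · rintro ⟨r, hr⟩
    rw [mem_filter, mem_Bx] at hr
    exact ⟨r, hr⟩

/-- The number of the irreducible polynomials `a² + r` with `deg r < H`. -/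
noncomputable def near {K : Type} [Field K] (H : ℕ) (a : K[X]) : ℕ :=
  {r : K[X] | r.degree < (H : WithBot ℕ) ∧ Irreducible (a ^ 2 + r)}.ncard

/-- **Primes near squares.** -/
theorem final (hb : S_bhqp) (ho : S_one) (hbk : S_bhk) (hm : S_mert) (K : Type) [Field K]
    [Fintype K] [CharP K 2] :
    ∃ c δ θ : ℝ, 0 < c ∧ 0 < δ ∧ 0 < θ ∧ ∃ d₀ : ℕ, ∀ d : ℕ, d₀ ≤ d →
      (∀ H : ℕ, 2 ≤ H →
        c * min 1 ((Fintype.card K : ℝ) ^ H / d) * (Fintype.card K : ℝ) ^ d ≤
          ({a : K[X] | a.Monic ∧ a.natDegree = d ∧ ∃ r : K[X], r.degree < (H : WithBot ℕ) ∧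
            Irreducible (a ^ 2 + r)}.ncard : ℝ) ∧
        ({a : K[X] | a.Monic ∧ a.natDegree = d ∧ ∃ r : K[X], r.degree < (H : WithBot ℕ) ∧
            Irreducible (a ^ 2 + r)}.ncard : ℝ) ≤
          min 1 ((Fintype.card K : ℝ) ^ H / d) * (Fintype.card K : ℝ) ^ d) ∧
      (∀ H : ℕ, 2 ≤ H → (H : ℝ) ≤ θ * d →
        c * min 1 ((Fintype.card K : ℝ) ^ H / d) * (Fintype.card K : ℝ) ^ d ≤
          ({a : K[X] | a.Monic ∧ a.natDegree = d ∧ 1 ≤ near H a ∧
            c * ((Fintype.card K : ℝ) ^ H / d) ≤ near H a}.ncard : ℝ)) ∧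
      (∀ H : ℕ, (H : ℝ) ≤ θ * d →
        |2 * (d : ℝ) * ∑ᶠ a ∈ {a : K[X] | a.Monic ∧ a.natDegree = d}, (near H a : ℝ) -
          ((Fintype.card K : ℝ) ^ H - (Fintype.card K : ℝ) ^ ((H + 1) / 2)) *
            (Fintype.card K : ℝ) ^ d| ≤ (Fintype.card K : ℝ) ^ ((1 - δ) * d)) := by
  obtain ⟨c, θ₁, hc, hθ₁, d₁, h1⟩ := dist hb ho hbk hm K
  obtain ⟨δ, θ₂, hδ, hθ₂, d₂, h2⟩ := mean hb K
  have hnear : ∀ (H : ℕ) (a : K[X]), near H a = N H a := fun H a => near_eq H a
  refine ⟨c, δ, min θ₁ θ₂, hc, hδ, lt_min hθ₁ hθ₂, max d₁ d₂, fun d hd => ?_⟩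
  have hd1 := (le_max_left _ _).trans hd
  have hd2 := (le_max_right _ _).trans hd
  refine ⟨fun H hH => ?_, fun H hH hHd => ?_, fun H hHd => ?_⟩
  · have h3 := (h1 d H hd1 hH).2
    simp only [ex_iff]
    rw [set_eq]
    exact h3
  · have h3 := (h1 d H hd1 hH).1 (hHd.trans
      (mul_le_mul_of_nonneg_right (min_le_left _ _) (Nat.cast_nonneg _)))
    simp only [hnear]
    rw [set_eq]
    exact h3
  · have h3 := h2 d H hd2 (hHd.trans
      (mul_le_mul_of_nonneg_right (min_le_right _ _) (Nat.cast_nonneg _)))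
    simp only [hnear]
    have h4 : {a : K[X] | a.Monic ∧ a.natDegree = d} = ((Mn K d : Finset K[X]) : Set K[X]) := by
      ext a
      rw [mem_coe, mem_Mn]
      exact Iff.rfl
    rw [h4, finsum_mem_coe_finset]
    exact h3

end Pool.Agent.H604.LD.Sq
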